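import Pool.Agent.V11278.Rect.Upper

set_option autoImplicit false
set_option linter.unusedSectionVars false

/-!
Componentwise operations, the grid example, and the uniform version.
-/

namespace Pool.Agent.V11278.Rect

open Finset

/-! ### Operations -/

section ops
variable {X Y Z : Type*} [DecidableEq X] [DecidableEq Y] [DecidableEq Z]

/-- `H` is closed under the componentwise ternary operation. -/
def ClosedUnder (mX : X → X → X → X) (mY : Y → Y → Y → Y) (mZ : Z → Z → Z → Z)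
    (H : Finset (X × Y × Z)) : Prop :=
  ∀ p ∈ H, ∀ q ∈ H, ∀ r ∈ H, (mX p.1 q.1 r.1, mY p.2.1 q.2.1 r.2.1, mZ p.2.2 q.2.2 r.2.2) ∈ H

lemma closed_rect {mX : X → X → X → X} {mY : Y → Y → Y → Y} {mZ : Z → Z → Z → Z}
    {H : Finset (X × Y × Z)} (hH : ClosedUnder mX mY mZ H)
    (hX : ∀ a b, mX a b b = a) (hY : ∀ a b, mY a a b = b) (hZ : ∀ a b, mZ a a b = b) :
    Rectangular (sh12 H) ∧ Rectangular (sh13 H) := by
  constructor
  · rintro a a' b b' ⟨z1, h1⟩ ⟨z2, h2⟩ ⟨z3, h3⟩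
    have := hH _ h1 _ h2 _ h3
    simp only [hX, hY] at this
    exact ⟨_, this⟩
  · rintro a a' b b' ⟨z1, h1⟩ ⟨z2, h2⟩ ⟨z3, h3⟩
    have := hH _ h1 _ h2 _ h3
    simp only [hX, hZ] at this
    exact ⟨_, this⟩

lemma sparse_mono {s : ℕ} {H H' : Finset (X × Y × Z)} (hH : Sparse s H) (h : H' ⊆ H) :
    Sparse s H' := fun T hT hc => hH T (hT.trans h) hc

end ops

/-! ### The grid -/

section grid
variable {I J K : Type*} [DecidableEq I] [DecidableEq J] [DecidableEq K]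

/-- The triple of the point `(i, j, k)` of the grid: its three projections. -/
def pt (u : I × J × K) : (I × J) × (I × K) × (J × K) := ((u.1, u.2.1), (u.1, u.2.2), (u.2.1, u.2.2))

lemma pt_inj : Function.Injective (pt (I := I) (J := J) (K := K)) := by
  rintro ⟨i, j, k⟩ ⟨i', j', k'⟩ h
  simp only [pt, Prod.mk.injEq] at h
  obtain ⟨⟨h1, h2⟩, ⟨-, h3⟩, -⟩ := h
  rw [h1, h2, h3]

variable [Fintype I] [Fintype J] [Fintype K]

def grid (I J K : Type*) [DecidableEq I] [DecidableEq J] [DecidableEq K]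
    [Fintype I] [Fintype J] [Fintype K] : Finset ((I × J) × (I × K) × (J × K)) :=
  univ.image pt

lemma mem_grid {t : (I × J) × (I × K) × (J × K)} : t ∈ grid I J K ↔ ∃ u, pt u = t := by
  simp [grid]

lemma card_grid : (grid I J K).card = Fintype.card I * Fintype.card J * Fintype.card K := by
  unfold grid
  rw [card_image_of_injective _ pt_inj, card_univ, Fintype.card_prod, Fintype.card_prod, mul_assoc]

/-- Loomis–Whitney. -/
lemma loomis (T : Finset ((I × J) × (I × K) × (J × K))) (hT : T ⊆ grid I J K) :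
    T.card ^ 2 ≤ (T.image fun t => t.1).card *
      ((T.image fun t => t.2.1).card * (T.image fun t => t.2.2).card) := by
  have h1 : T.card = ∑ p ∈ T.image (fun t => t.1), (T.filter fun t => t.1 = p).card :=
    card_eq_sum_card_image _ _
  have h2 : T.card ^ 2 ≤ (T.image fun t => t.1).card *
      ∑ p ∈ T.image (fun t => t.1), (T.filter fun t => t.1 = p).card ^ 2 := by
    conv_lhs => rw [h1]
    exact sq_sum_le_card_mul_sum_sq
  refine h2.trans (Nat.mul_le_mul_left _ ?_)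
  rw [← card_product]
  have h3 : ∑ p ∈ T.image (fun t => t.1), (T.filter fun t => t.1 = p).card ^ 2 =
      ((T.image fun t => t.1).sigma
        (fun p => (T.filter fun t => t.1 = p) ×ˢ (T.filter fun t => t.1 = p))).card := by
    rw [card_sigma]
    apply sum_congr rfl
    intro p _
    rw [card_product, sq]
  rw [h3]
  apply card_le_card_of_injOn (fun v => (v.2.1.2.1, v.2.2.2.2))
  · intro v hv
    have hv' := (mem_sigma.mp (mem_coe.mp hv)).2
    rw [mem_product, mem_filter, mem_filter] at hv'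
    exact mem_coe.mpr (mem_product.mpr ⟨mem_image_of_mem _ hv'.1.1, mem_image_of_mem _ hv'.2.1⟩)
  · rintro ⟨p, t, t'⟩ hv ⟨p2, t2, t2'⟩ hv2 he
    have hv' := (mem_sigma.mp (mem_coe.mp hv)).2
    have hv2' := (mem_sigma.mp (mem_coe.mp hv2)).2
    simp only [mem_product, mem_filter] at hv' hv2'
    obtain ⟨⟨ht, e1⟩, ⟨ht', e2⟩⟩ := hv'
    obtain ⟨⟨ht2, e3⟩, ⟨ht2', e4⟩⟩ := hv2'
    obtain ⟨u, rfl⟩ := mem_grid.mp (hT ht)
    obtain ⟨u', rfl⟩ := mem_grid.mp (hT ht')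
    obtain ⟨w, rfl⟩ := mem_grid.mp (hT ht2)
    obtain ⟨w', rfl⟩ := mem_grid.mp (hT ht2')
    obtain ⟨i, j, k⟩ := u
    obtain ⟨i', j', k'⟩ := u'
    obtain ⟨a, b, c⟩ := w
    obtain ⟨a', b', c'⟩ := w'
    simp only [pt, Prod.mk.injEq] at *
    subst e1
    subst e3
    simp only [Prod.mk.injEq] at *
    obtain ⟨e21, e22⟩ := e2
    obtain ⟨e41, e42⟩ := e4
    obtain ⟨⟨f1, f2⟩, ⟨f3, f4⟩⟩ := he
    subst e21 e22 e41 e42 f1 f2 f3 f4
    rfl

lemma amgm (p q r : ℕ) : 27 * (p * (q * r)) ≤ (p + q + r) ^ 3 := by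
  zify
  have hp : (0:ℤ) ≤ p := Int.natCast_nonneg p
  have hq : (0:ℤ) ≤ q := Int.natCast_nonneg q
  have hr : (0:ℤ) ≤ r := Int.natCast_nonneg r
  nlinarith [mul_nonneg hp (sq_nonneg ((q:ℤ) - r)), mul_nonneg hq (sq_nonneg ((p:ℤ) - r)),
    mul_nonneg hr (sq_nonneg ((p:ℤ) - q)), mul_nonneg hp (sq_nonneg ((p:ℤ) - q)),
    mul_nonneg hp (sq_nonneg ((p:ℤ) - r)), mul_nonneg hq (sq_nonneg ((q:ℤ) - r)),
    mul_nonneg hq (sq_nonneg ((q:ℤ) - p)), mul_nonneg hr (sq_nonneg ((r:ℤ) - p)),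
    mul_nonneg hr (sq_nonneg ((r:ℤ) - q))]

lemma grid_sparse {s : ℕ} (h3 : 3 ≤ s) (h16 : s ≤ 16) : Sparse s (grid I J K) := by
  intro T hT hc
  by_contra hcon
  have h1 := loomis T hT
  have h2 := amgm (T.image fun t => t.1).card (T.image fun t => t.2.1).card
    (T.image fun t => t.2.2).card
  have h4 : (T.image fun t => t.1).card + (T.image fun t => t.2.1).card +
    (T.image fun t => t.2.2).card ≤ s + 3 := by unfold spanned at hcon; omega
  have h5 := Nat.pow_le_pow_left h4 3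
  rw [hc] at h1
  have h6 : 27 * s ^ 2 ≤ (s + 3) ^ 3 := by
    calc 27 * s ^ 2 ≤ 27 * ((T.image fun t => t.1).card *
      ((T.image fun t => t.2.1).card * (T.image fun t => t.2.2).card)) :=
          Nat.mul_le_mul_left _ h1
      _ ≤ _ := h2.trans h5
  interval_cases s <;> norm_num at h6

/-- The grid is closed under the componentwise operation built from any ternary operations on
`I`, `J`, `K`. -/
lemma grid_closed (mI : I → I → I → I) (mJ : J → J → J → J) (mK : K → K → K → K) :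
    ClosedUnder (fun a b c => (mI a.1 b.1 c.1, mJ a.2 b.2 c.2))
      (fun a b c => (mI a.1 b.1 c.1, mK a.2 b.2 c.2))
      (fun a b c => (mJ a.1 b.1 c.1, mK a.2 b.2 c.2)) (grid I J K) := by
  intro p hp q hq r hr
  obtain ⟨u, rfl⟩ := mem_grid.mp hp
  obtain ⟨v, rfl⟩ := mem_grid.mp hq
  obtain ⟨w, rfl⟩ := mem_grid.mp hr
  exact mem_grid.mpr ⟨(mI u.1 v.1 w.1, mJ u.2.1 v.2.1 w.2.1, mK u.2.2 v.2.2 w.2.2), rfl⟩

lemma grid_rect : Rectangular (sh12 (grid I J K)) ∧ Rectangular (sh13 (grid I J K)) ∧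
    Rectangular (sh23 (grid I J K)) := by
  refine ⟨?_, ?_, ?_⟩
  · rintro a a' b b' ⟨z1, h1⟩ ⟨z2, h2⟩ ⟨z3, h3⟩
    obtain ⟨u, hu⟩ := mem_grid.mp h1
    obtain ⟨v, hv⟩ := mem_grid.mp h2
    obtain ⟨w, hw⟩ := mem_grid.mp h3
    obtain ⟨i, j, k⟩ := u
    obtain ⟨i', j', k'⟩ := v
    obtain ⟨i'', j'', k''⟩ := w
    simp only [pt, Prod.mk.injEq] at hu hv hw
    obtain ⟨rfl, rfl, rfl⟩ := hu
    obtain ⟨rfl, hb, rfl⟩ := hv
    obtain ⟨ha, rfl, rfl⟩ := hw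
    simp only [Prod.mk.injEq] at ha hb
    obtain ⟨rfl, rfl⟩ := hb
    obtain ⟨rfl, rfl⟩ := ha
    exact ⟨_, mem_grid.mpr ⟨(_, j, k''), rfl⟩⟩
  · rintro a a' b b' ⟨z1, h1⟩ ⟨z2, h2⟩ ⟨z3, h3⟩
    obtain ⟨u, hu⟩ := mem_grid.mp h1
    obtain ⟨v, hv⟩ := mem_grid.mp h2
    obtain ⟨w, hw⟩ := mem_grid.mp h3
    obtain ⟨i, j, k⟩ := u
    obtain ⟨i', j', k'⟩ := v
    obtain ⟨i'', j'', k''⟩ := w
    simp only [pt, Prod.mk.injEq] at hu hv hw
    obtain ⟨rfl, rfl, rfl⟩ := hu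
    obtain ⟨rfl, rfl, hb⟩ := hv
    obtain ⟨ha, rfl, rfl⟩ := hw
    simp only [Prod.mk.injEq] at ha hb
    obtain ⟨rfl, rfl⟩ := hb
    obtain ⟨rfl, rfl⟩ := ha
    exact ⟨_, mem_grid.mpr ⟨(i, _, k''), rfl⟩⟩
  · rintro a a' b b' ⟨z1, h1⟩ ⟨z2, h2⟩ ⟨z3, h3⟩
    obtain ⟨u, hu⟩ := mem_grid.mp h1
    obtain ⟨v, hv⟩ := mem_grid.mp h2
    obtain ⟨w, hw⟩ := mem_grid.mp h3
    obtain ⟨i, j, k⟩ := u
    obtain ⟨i', j', k'⟩ := v
    obtain ⟨i'', j'', k''⟩ := w
    simp only [pt, Prod.mk.injEq] at hu hv hw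
    obtain ⟨rfl, rfl, rfl⟩ := hu
    obtain ⟨rfl, rfl, hb⟩ := hv
    obtain ⟨rfl, ha, rfl⟩ := hw
    simp only [Prod.mk.injEq] at ha hb
    obtain ⟨rfl, rfl⟩ := hb
    obtain ⟨rfl, rfl⟩ := ha
    exact ⟨_, mem_grid.mpr ⟨(i, j'', _), rfl⟩⟩

end grid

end Pool.Agent.V11278.Rect
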