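import Pool.Agent.V11278.Rect.Gumm

set_option autoImplicit false

/-!
Corner-free sets whose triple system is closed under componentwise directed Gumm operations.
-/

namespace Pool.Agent.V11278.Rect

open Finset

/-- `A ⊆ G × G` contains no nontrivial corner `(x, y), (x, y + z), (x + z, y)`, `z ≠ 0`. -/
def CornerFree {G : Type*} [AddCommGroup G] (A : Finset (G × G)) : Prop :=
  ∀ x y z : G, (x, y) ∈ A → (x, y + z) ∈ A → (x + z, y) ∈ A → z = 0

/-- The triples `(x, y, x + y)`, `(x, y) ∈ A`. -/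
def triples {G : Type*} [AddCommGroup G] [DecidableEq G] (A : Finset (G × G)) :
    Finset (G × G × G) :=
  A.image fun p => (p.1, p.2, p.1 + p.2)

lemma mem_triples {G : Type*} [AddCommGroup G] [DecidableEq G] {A : Finset (G × G)} {x y z : G} :
    (x, y, z) ∈ triples A ↔ (x, y) ∈ A ∧ z = x + y := by
  unfold triples
  rw [mem_image]
  constructor
  · rintro ⟨⟨a, b⟩, h1, h2⟩
    simp only [Prod.mk.injEq] at h2
    obtain ⟨rfl, rfl, rfl⟩ := h2
    exact ⟨h1, rfl⟩
  · rintro ⟨h1, rfl⟩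
    exact ⟨(x, y), h1, rfl⟩

lemma sh12_triples {G : Type*} [AddCommGroup G] [DecidableEq G] {A : Finset (G × G)} {x y : G} :
    sh12 (triples A) x y ↔ (x, y) ∈ A := by
  unfold sh12
  constructor
  · rintro ⟨z, hz⟩; exact (mem_triples.1 hz).1
  · intro h; exact ⟨_, mem_triples.2 ⟨h, rfl⟩⟩

lemma sh13_triples {G : Type*} [AddCommGroup G] [DecidableEq G] {A : Finset (G × G)} {x z : G} :
    sh13 (triples A) x z ↔ (x, z - x) ∈ A := by
  unfold sh13
  constructor
  · rintro ⟨y, hy⟩
    obtain ⟨h1, h2⟩ := mem_triples.1 hy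
    have : z - x = y := by rw [h2]; abel
    rw [this]; exact h1
  · intro h; exact ⟨z - x, mem_triples.2 ⟨h, by abel⟩⟩

lemma nb_triples {G : Type*} [AddCommGroup G] [DecidableEq G] {A : Finset (G × G)} {y u u' : G}
    (h : u' ∈ nb (triples A) y u) : u' = u := by
  rw [mem_nb] at h
  obtain ⟨w, h1, h2⟩ := h
  have e1 := (mem_triples.1 h1).2
  have e2 := (mem_triples.1 h2).2
  have : u' + y = u + y := by rw [← e1, ← e2]
  exact add_right_cancel this

lemma ball_triples {G : Type*} [AddCommGroup G] [DecidableEq G] {A : Finset (G × G)} {y x : G}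
    (l : ℕ) : ∀ u ∈ ball (triples A) y x l, u = x := by
  induction l with
  | zero =>
    intro u hu
    exact mem_singleton.1 hu
  | succ l ih =>
    intro u hu
    obtain ⟨v, hv, huv⟩ := mem_biUnion.1 hu
    rw [nb_triples huv]
    exact ih v hv

/-- Two common neighbours of `y` and `z` coincide. -/
theorem common_unique {G : Type*} [AddCommGroup G] [Fintype G] [DecidableEq G] {L : ℕ}
    {dX dY dZ : ℕ → G → G → G → G} {qX qY qZ : G → G → G → G} {A : Finset (G × G)}
    (hA : CornerFree A)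
    (hX : DirectedGumm L dX qX) (hY : DirectedGumm L dY qY) (hZ : DirectedGumm L dZ qZ)
    (hd : ∀ l < L, ClosedUnder (dX l) (dY l) (dZ l) (triples A))
    (hq : ClosedUnder qX qY qZ (triples A)) (y z : G) :
    ∃ x1, ∀ x0, (x0, y) ∈ A → (x0, z - x0) ∈ A → x0 = x1 := by
  classical
  set S : Finset G := univ.filter fun x => (x, y) ∈ A ∧ (x, z - x) ∈ A with hS
  rcases S.eq_empty_or_nonempty with h0 | hne
  · refine ⟨0, fun x0 h1 h2 => ?_⟩
    have : x0 ∈ S := mem_filter.2 ⟨mem_univ _, h1, h2⟩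
    rw [h0] at this
    exact absurd this (notMem_empty _)
  let R : G → Finset G := fun x => univ.filter fun b => (x, b) ∈ A
  let T : G → Finset G := fun x => univ.filter fun c => (x, c - x) ∈ A
  obtain ⟨x1, hx1, hmax⟩ := exists_max_image S (fun x => (R x).card + (T x).card) hne
  refine ⟨x1, fun x0 h1 h2 => ?_⟩
  have m1 := (mem_filter.1 hx1).2
  have a0 : sh12 (triples A) x0 y := sh12_triples.2 h1
  have a1 : sh12 (triples A) x1 y := sh12_triples.2 m1.1
  have b0 : sh13 (triples A) x0 z := sh13_triples.2 h2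
  have b1 : sh13 (triples A) x1 z := sh13_triples.2 m1.2
  obtain ⟨dom1, dom2⟩ := dominate hq hY.2.2.2 hZ.2.2.2 a0 a1 b0 b1
  set w := qX x0 x1 x1 with hw
  have hsub1 : R x1 ⊆ R w := by
    intro b hb
    exact mem_filter.2 ⟨mem_univ _, sh12_triples.1 (dom1 b (sh12_triples.2 (mem_filter.1 hb).2))⟩
  have hsub2 : T x1 ⊆ T w := by
    intro b hb
    exact mem_filter.2 ⟨mem_univ _, sh13_triples.1 (dom2 b (sh13_triples.2 (mem_filter.1 hb).2))⟩
  have hwS : w ∈ S := mem_filter.2 ⟨mem_univ _, sh12_triples.1 (dom1 y a1),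
    sh13_triples.1 (dom2 z b1)⟩
  have hmw := hmax w hwS
  have c1 := card_le_card hsub1
  have c2 := card_le_card hsub2
  have e1 : R x1 = R w := eq_of_subset_of_card_le hsub1 (by omega)
  have e2 : T x1 = T w := eq_of_subset_of_card_le hsub2 (by omega)
  have hwx : w = x1 := by
    -- `(x1, y)`, `(w, y)` and `(x1, y + (w - x1))` are in `A`
    have f1 : (w, y) ∈ A := (mem_filter.1 hwS).2.1
    have f2 : w + y ∈ T w := mem_filter.2 ⟨mem_univ _, by
      have : w + y - w = y := by abel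
      rw [this]; exact f1⟩
    rw [← e2] at f2
    have f3 : (x1, y + (w - x1)) ∈ A := by
      have := (mem_filter.1 f2).2
      have e3 : w + y - x1 = y + (w - x1) := by abel
      rw [e3] at this
      exact this
    have f4 : (x1 + (w - x1), y) ∈ A := by
      have : x1 + (w - x1) = w := by abel
      rw [this]; exact f1
    have := hA x1 y (w - x1) m1.1 f3 f4
    exact sub_eq_zero.1 this
  have h5 := chain hX hY hd a0 a1 b0 b1 hwx
  exact ball_triples L x0 h5

theorem corner {G : Type*} [AddCommGroup G] [Fintype G] [DecidableEq G] {L : ℕ}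
    {dX dY dZ : ℕ → G → G → G → G} {qX qY qZ : G → G → G → G} {A : Finset (G × G)}
    (hA : CornerFree A)
    (hX : DirectedGumm L dX qX) (hY : DirectedGumm L dY qY) (hZ : DirectedGumm L dZ qZ)
    (hd : ∀ l < L, ClosedUnder (dX l) (dY l) (dZ l) (triples A))
    (hq : ClosedUnder qX qY qZ (triples A)) :
    A.card ^ 2 ≤ Fintype.card G ^ 3 := by
  classical
  let R : G → Finset G := fun x => univ.filter fun b => (x, b) ∈ A
  have h1 : A.card = ∑ x : G, (R x).card := by
    rw [card_eq_sum_card_fiberwise (f := fun p : G × G => p.1) (t := univ) (fun _ _ => mem_univ _)]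
    refine sum_congr rfl fun x _ => ?_
    refine card_bij (fun p _ => p.2) ?_ ?_ ?_
    · rintro ⟨a, b⟩ hp
      obtain ⟨hp1, hp2⟩ := mem_filter.1 hp
      simp only at hp2
      subst hp2
      exact mem_filter.2 ⟨mem_univ _, hp1⟩
    · rintro ⟨a, b⟩ hp ⟨a', b'⟩ hp' hbb
      have e1 := (mem_filter.1 hp).2
      have e2 := (mem_filter.1 hp').2
      simp only at e1 e2 hbb
      rw [e1, e2, hbb]
    · intro b hb
      exact ⟨(x, b), mem_filter.2 ⟨(mem_filter.1 hb).2, rfl⟩, rfl⟩
  -- the triples `(x, y, y')`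
  have h2 : ∑ x : G, (R x).card ^ 2 ≤ Fintype.card G ^ 2 := by
    have e1 : ∑ x : G, (R x).card ^ 2 = (univ.sigma fun x : G => R x ×ˢ R x).card := by
      rw [card_sigma]
      refine sum_congr rfl fun x _ => ?_
      rw [card_product, sq]
    rw [e1]
    have e2 : Fintype.card G ^ 2 = (univ : Finset (G × G)).card := by
      rw [card_univ, Fintype.card_prod, sq]
    rw [e2]
    refine card_le_card_of_injOn (fun t : (_ : G) × (G × G) => (t.2.1, t.1 + t.2.2))
      (fun _ _ => mem_coe.2 (mem_univ _)) ?_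
    rintro ⟨x, y, y'⟩ ht ⟨u, v, v'⟩ hs hts
    simp only [Prod.mk.injEq] at hts
    obtain ⟨hyv, hz⟩ := hts
    subst hyv
    have t1 := mem_product.1 (mem_sigma.1 (mem_coe.1 ht)).2
    have s1 := mem_product.1 (mem_sigma.1 (mem_coe.1 hs)).2
    have t2 := (mem_filter.1 t1.1).2
    have t3 := (mem_filter.1 t1.2).2
    have s2 := (mem_filter.1 s1.1).2
    have s3 := (mem_filter.1 s1.2).2
    simp only at t2 t3 s2 s3
    obtain ⟨x1, hx1⟩ := common_unique hA hX hY hZ hd hq y (x + y')
    have g1 : x = x1 := hx1 x t2 (by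
      have : x + y' - x = y' := by abel
      rw [this]; exact t3)
    have g2 : u = x1 := hx1 u s2 (by
      have : x + y' - u = v' := by rw [hz]; abel
      rw [this]; exact s3)
    have g3 : x = u := g1.trans g2.symm
    subst g3
    have g4 : y' = v' := add_left_cancel hz
    subst g4
    rfl
  calc A.card ^ 2 = (∑ x : G, (R x).card) ^ 2 := by rw [h1]
    _ ≤ (univ : Finset G).card * ∑ x : G, (R x).card ^ 2 := sq_sum_le_card_mul_sum_sq
    _ ≤ Fintype.card G * Fintype.card G ^ 2 := by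
        rw [card_univ]; exact Nat.mul_le_mul_left _ h2
    _ = _ := by ring

/-- A corner-free set with `|G| ^ (3/2)` elements, closed under `a - b + c`. -/
def grp (K : Type*) [AddCommGroup K] [Fintype K] [DecidableEq K] :
    Finset ((K × K) × (K × K)) :=
  univ.image fun t : K × K × K => ((t.1, t.2.1), (t.2.2, t.1))

lemma mem_grp {K : Type*} [AddCommGroup K] [Fintype K] [DecidableEq K] {a b c e : K} :
    ((a, b), (c, e)) ∈ grp K ↔ e = a := by
  unfold grp
  rw [mem_image]
  constructor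
  · rintro ⟨⟨x, y, z⟩, -, h⟩
    simp only [Prod.mk.injEq] at h
    obtain ⟨⟨rfl, rfl⟩, rfl, rfl⟩ := h
    rfl
  · rintro rfl
    exact ⟨(e, b, c), mem_univ _, rfl⟩

theorem grp_card {K : Type*} [AddCommGroup K] [Fintype K] [DecidableEq K] :
    (grp K).card = Fintype.card K ^ 3 := by
  unfold grp
  rw [card_image_of_injective _ (by
    rintro ⟨x, y, z⟩ ⟨x', y', z'⟩ h
    simp only [Prod.mk.injEq] at h
    obtain ⟨⟨rfl, rfl⟩, rfl, -⟩ := h
    rfl), card_univ, Fintype.card_prod, Fintype.card_prod]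
  ring

theorem grp_cornerFree {K : Type*} [AddCommGroup K] [Fintype K] [DecidableEq K] :
    CornerFree (grp K) := by
  rintro ⟨a, b⟩ ⟨c, e⟩ ⟨z, z'⟩ h1 h2 h3
  rw [Prod.mk_add_mk] at h2 h3
  rw [mem_grp] at h1 h2 h3
  have e1 : z' = 0 := by
    rw [h1] at h2
    exact add_eq_left.1 h2
  have e2 : z = 0 := by
    rw [h1] at h3
    exact (add_eq_left.1 h3.symm)
  rw [e1, e2]
  rfl

theorem grp_closed {K : Type*} [AddCommGroup K] [Fintype K] [DecidableEq K] :
    ClosedUnder (fun a b c : K × K => a - b + c) (fun a b c => a - b + c)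
      (fun a b c => a - b + c) (triples (grp K)) := by
  rintro ⟨x1, y1, z1⟩ h1 ⟨x2, y2, z2⟩ h2 ⟨x3, y3, z3⟩ h3
  rw [mem_triples] at h1 h2 h3 ⊢
  obtain ⟨g1, rfl⟩ := h1
  obtain ⟨g2, rfl⟩ := h2
  obtain ⟨g3, rfl⟩ := h3
  refine ⟨?_, by simp only; abel⟩
  obtain ⟨a1, b1⟩ := x1
  obtain ⟨a2, b2⟩ := x2
  obtain ⟨a3, b3⟩ := x3
  obtain ⟨c1, e1⟩ := y1
  obtain ⟨c2, e2⟩ := y2
  obtain ⟨c3, e3⟩ := y3
  rw [mem_grp] at g1 g2 g3
  subst g1 g2 g3
  exact mem_grp.2 rfl

theorem maltsev_gumm {K : Type*} [AddCommGroup K] (d : ℕ → K → K → K → K) :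
    DirectedGumm 0 d (fun a b c : K => a - b + c) := by
  refine ⟨fun l hl => absurd hl (Nat.not_lt_zero _), fun l hl => absurd hl (Nat.not_lt_zero _),
    fun a b => ?_, fun a b => ?_⟩
  · simp
  · simp

end Pool.Agent.V11278.Rect
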