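import Pool.Agent.V11278.Rect.Linear
import Pool.Agent.V11278.Rect.More

set_option autoImplicit false
set_option linter.unusedSectionVars false

/-!
Triple systems closed under componentwise directed Gumm operations.
-/

namespace Pool.Agent.V11278.Rect

open Finset

variable {X Y Z : Type*} [DecidableEq X] [DecidableEq Y] [DecidableEq Z]

/-- Directed Gumm operations `d 0, …, d (L - 1), q`: `d l a b a = a` for all `l < L`, `q a a b = b`,
and in the sequence `a, d 0 a a b, d 0 a b b, d 1 a a b, d 1 a b b, …, d (L - 1) a b b, q a b b`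
the first two members are equal, then the next two and so on, up to the last two (for `L = 0`:
`q a b b = a`, so that `q` is a Maltsev operation). -/
def DirectedGumm {A : Type*} (L : ℕ) (d : ℕ → A → A → A → A) (q : A → A → A → A) : Prop :=
  (∀ l < L, ∀ a b, d l a b a = a) ∧
  (∀ l < L, ∀ a b, d l a a b = if l = 0 then a else d (l - 1) a b b) ∧
  (∀ a b, q a b b = if L = 0 then a else d (L - 1) a b b) ∧
  (∀ a b, q a a b = b)

/-- The vertices `u'` such that `(u, y, w)` and `(u', y, w)` are triples for some `w`. -/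
def nb (H : Finset (X × Y × Z)) (y : Y) (u : X) : Finset X :=
  (((H.filter fun t => t.1 = u ∧ t.2.1 = y).image fun t => t.2.2).biUnion
    fun w => (H.filter fun t => t.2.1 = y ∧ t.2.2 = w).image fun t => t.1)

lemma mem_nb {H : Finset (X × Y × Z)} {y : Y} {u u' : X} :
    u' ∈ nb H y u ↔ ∃ w, (u, y, w) ∈ H ∧ (u', y, w) ∈ H := by
  unfold nb
  rw [mem_biUnion]
  constructor
  · rintro ⟨w, hw, hu⟩
    obtain ⟨t, ht, rfl⟩ := mem_image.mp hw
    obtain ⟨t', ht', rfl⟩ := mem_image.mp hu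
    obtain ⟨h1, h2, h3⟩ := mem_filter.mp ht
    obtain ⟨h4, h5, h6⟩ := mem_filter.mp ht'
    refine ⟨t.2.2, ?_, ?_⟩
    · rw [← h2, ← h3]; exact h1
    · rw [← h5, ← h6]; exact h4
  · rintro ⟨w, h1, h2⟩
    exact ⟨w, mem_image.mpr ⟨_, mem_filter.mpr ⟨h1, rfl, rfl⟩, rfl⟩,
      mem_image.mpr ⟨_, mem_filter.mpr ⟨h2, rfl, rfl⟩, rfl⟩⟩

lemma nb_symm {H : Finset (X × Y × Z)} {y : Y} {u u' : X} (h : u' ∈ nb H y u) : u ∈ nb H y u' := by
  rw [mem_nb] at h ⊢
  obtain ⟨w, h1, h2⟩ := h
  exact ⟨w, h2, h1⟩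

lemma codeg12 {s : ℕ} {H : Finset (X × Y × Z)} (hH : Sparse s H) (hs : 1 ≤ s) (x : X) (y : Y) :
    (H.filter fun t => t.1 = x ∧ t.2.1 = y).card ≤ s - 1 := by
  by_contra hcon
  obtain ⟨T, hT, hc⟩ := exists_subset_card_eq (s := H.filter fun t => t.1 = x ∧ t.2.1 = y) (n := s)
    (by omega)
  have h1 := hH T (hT.trans (filter_subset _ _)) hc
  unfold spanned at h1
  have h2 : (T.image fun t => t.1) ⊆ {x} := by
    intro u hu
    obtain ⟨t, ht, rfl⟩ := mem_image.mp hu
    simpa using (mem_filter.mp (hT ht)).2.1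
  have h3 : (T.image fun t => t.2.1) ⊆ {y} := by
    intro u hu
    obtain ⟨t, ht, rfl⟩ := mem_image.mp hu
    simpa using (mem_filter.mp (hT ht)).2.2
  have h4 := card_le_card h2
  have h5 := card_le_card h3
  have h6 : (T.image fun t => t.2.2).card ≤ T.card := card_image_le
  rw [card_singleton] at h4 h5
  omega

lemma codeg23 {s : ℕ} {H : Finset (X × Y × Z)} (hH : Sparse s H) (hs : 1 ≤ s) (y : Y) (z : Z) :
    (H.filter fun t => t.2.1 = y ∧ t.2.2 = z).card ≤ s - 1 := by
  by_contra hcon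
  obtain ⟨T, hT, hc⟩ := exists_subset_card_eq (s := H.filter fun t => t.2.1 = y ∧ t.2.2 = z)
    (n := s) (by omega)
  have h1 := hH T (hT.trans (filter_subset _ _)) hc
  unfold spanned at h1
  have h2 : (T.image fun t => t.2.1) ⊆ {y} := by
    intro u hu
    obtain ⟨t, ht, rfl⟩ := mem_image.mp hu
    simpa using (mem_filter.mp (hT ht)).2.1
  have h3 : (T.image fun t => t.2.2) ⊆ {z} := by
    intro u hu
    obtain ⟨t, ht, rfl⟩ := mem_image.mp hu
    simpa using (mem_filter.mp (hT ht)).2.2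
  have h4 := card_le_card h2
  have h5 := card_le_card h3
  have h6 : (T.image fun t => t.1).card ≤ T.card := card_image_le
  rw [card_singleton] at h4 h5
  omega

/-- The ball of radius `l` in this graph. -/
def ball (H : Finset (X × Y × Z)) (y : Y) (x : X) : ℕ → Finset X
  | 0 => {x}
  | l + 1 => (ball H y x l).biUnion (nb H y)

lemma nb_card {s : ℕ} {H : Finset (X × Y × Z)} (hH : Sparse s H) (hs : 1 ≤ s) (y : Y) (u : X) :
    (nb H y u).card ≤ (s - 1) ^ 2 := by
  unfold nb
  calc _ ≤ ((H.filter fun t => t.1 = u ∧ t.2.1 = y).image fun t => t.2.2).card * (s - 1) :=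
        card_biUnion_le_card_mul _ _ _ fun w _ => card_image_le.trans (codeg23 hH hs y w)
    _ ≤ (s - 1) * (s - 1) := Nat.mul_le_mul_right _ (card_image_le.trans (codeg12 hH hs u y))
    _ = _ := (sq _).symm

lemma ball_card {s : ℕ} {H : Finset (X × Y × Z)} (hH : Sparse s H) (hs : 1 ≤ s) (y : Y) (x : X)
    (l : ℕ) : (ball H y x l).card ≤ (s - 1) ^ (2 * l) := by
  induction l with
  | zero => simp [ball]
  | succ l ih =>
    calc (ball H y x (l + 1)).card ≤ (ball H y x l).card * (s - 1) ^ 2 :=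
          card_biUnion_le_card_mul _ _ _ fun u _ => nb_card hH hs y u
      _ ≤ (s - 1) ^ (2 * l) * (s - 1) ^ 2 := Nat.mul_le_mul_right _ ih
      _ = _ := by rw [← pow_add]; ring_nf

/-- One operation with `t a b a = a`. -/
lemma step {tX : X → X → X → X} {tY : Y → Y → Y → Y} {tZ : Z → Z → Z → Z}
    {H : Finset (X × Y × Z)} (hH : ClosedUnder tX tY tZ H) (ht : ∀ a b, tY a b a = a)
    {x0 x1 : X} {y : Y} {z : Z} (h0 : sh12 H x0 y) (h1 : sh12 H x1 y) (h2 : sh13 H x0 z)
    (h3 : sh13 H x1 z) : tX x0 x1 x1 ∈ nb H y (tX x0 x0 x1) := by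
  obtain ⟨w0, hf0⟩ := h0
  obtain ⟨w1, hf1⟩ := h1
  obtain ⟨v0, hg0⟩ := h2
  obtain ⟨v1, hg1⟩ := h3
  rw [mem_nb]
  refine ⟨tZ w0 z w1, ?_, ?_⟩
  · have := hH _ hf0 _ hg0 _ hf1
    simp only [ht] at this
    exact this
  · have := hH _ hf0 _ hg1 _ hf1
    simp only [ht] at this
    exact this

section main
variable {L : ℕ} {dX : ℕ → X → X → X → X} {dY : ℕ → Y → Y → Y → Y} {dZ : ℕ → Z → Z → Z → Z}
  {qX : X → X → X → X} {qY : Y → Y → Y → Y} {qZ : Z → Z → Z → Z} {H : Finset (X × Y × Z)}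

lemma chain (hX : DirectedGumm L dX qX) (hY : DirectedGumm L dY qY)
    (hd : ∀ l < L, ClosedUnder (dX l) (dY l) (dZ l) H)
    {x0 x1 : X} {y : Y} {z : Z} (h0 : sh12 H x0 y) (h1 : sh12 H x1 y) (h2 : sh13 H x0 z)
    (h3 : sh13 H x1 z) (hq : qX x0 x1 x1 = x1) : x0 ∈ ball H y x1 L := by
  obtain ⟨a1, a2, a3, a4⟩ := hX
  -- the sequence
  have hst : ∀ l < L, dX l x0 x1 x1 ∈ nb H y (if l = 0 then x0 else dX (l - 1) x0 x1 x1) := by
    intro l hl
    rw [← a2 l hl]
    exact step (hd l hl) (hY.1 l hl) h0 h1 h2 h3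
  have key : ∀ i ≤ L, (if L - i = 0 then x0 else dX (L - i - 1) x0 x1 x1) ∈ ball H y x1 i := by
    intro i
    induction i with
    | zero =>
      intro _
      simp only [ball, mem_singleton, Nat.sub_zero]
      rw [← a3, hq]
    | succ i ih =>
      intro hi
      have h4 := ih (by omega)
      rw [if_neg (by omega)] at h4
      have h5 := hst (L - i - 1) (by omega)
      have e1 : L - (i + 1) = L - i - 1 := by omega
      rw [e1]
      exact mem_biUnion.mpr ⟨_, h4, nb_symm h5⟩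
  have := key L le_rfl
  rw [Nat.sub_self, if_pos rfl] at this
  exact this

lemma dominate (hq : ClosedUnder qX qY qZ H)
    (hY : ∀ a b, qY a a b = b) (hZ : ∀ a b, qZ a a b = b)
    {x0 x1 : X} {y : Y} {z : Z} (h0 : sh12 H x0 y) (h1 : sh12 H x1 y) (h2 : sh13 H x0 z)
    (h3 : sh13 H x1 z) :
    (∀ b, sh12 H x1 b → sh12 H (qX x0 x1 x1) b) ∧ (∀ c, sh13 H x1 c → sh13 H (qX x0 x1 x1) c) := by
  constructor
  · rintro b ⟨w, hw⟩
    obtain ⟨w0, hf0⟩ := h0
    obtain ⟨w1, hf1⟩ := h1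
    have := hq _ hf0 _ hf1 _ hw
    simp only [hY] at this
    exact ⟨_, this⟩
  · rintro c ⟨w, hw⟩
    obtain ⟨v0, hg0⟩ := h2
    obtain ⟨v1, hg1⟩ := h3
    have := hq _ hg0 _ hg1 _ hw
    simp only [hZ] at this
    exact ⟨_, this⟩

lemma nZ_le_star (H : Finset (X × Y × Z)) (x : X) : (nZ H x).card ≤ (star H x).card :=
  card_image_le

/-- The common neighbours in `X` of `y` and `z`. -/
def common [Fintype X] (H : Finset (X × Y × Z)) (y : Y) (z : Z) : Finset X :=
  univ.filter fun x => y ∈ nY H x ∧ z ∈ nZ H x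

lemma common_card [Fintype X] {s : ℕ} (hs : 1 ≤ s) (hsp : Sparse s H)
    (hX : DirectedGumm L dX qX) (hY : DirectedGumm L dY qY) (hZ : DirectedGumm L dZ qZ)
    (hd : ∀ l < L, ClosedUnder (dX l) (dY l) (dZ l) H) (hq : ClosedUnder qX qY qZ H)
    (y : Y) (z : Z) (u : X) (hu : u ∈ common H y z) (hu1 : s ≤ (nY H u).card)
    (hu2 : s ≤ (nZ H u).card) : (common H y z).card ≤ (s - 1) ^ (2 * L) := by
  obtain ⟨x1, hx1, hmax⟩ := exists_max_image (common H y z)
    (fun x => (nY H x).card + (nZ H x).card) ⟨u, hu⟩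
  refine (card_le_card ?_).trans (ball_card hsp hs y x1 L)
  intro x0 hx0
  have m0 := (mem_filter.mp hx0).2
  have m1 := (mem_filter.mp hx1).2
  rw [mem_nY, mem_nZ] at m0 m1
  obtain ⟨dom1, dom2⟩ := dominate hq hY.2.2.2 hZ.2.2.2
    m0.1 m1.1 m0.2 m1.2
  set w := qX x0 x1 x1 with hw
  have hsub1 : nY H x1 ⊆ nY H w := by
    intro b hb; rw [mem_nY] at hb ⊢; exact dom1 b hb
  have hsub2 : nZ H x1 ⊆ nZ H w := by
    intro b hb; rw [mem_nZ] at hb ⊢; exact dom2 b hb
  have hwc : w ∈ common H y z := by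
    refine mem_filter.mpr ⟨mem_univ _, ?_, ?_⟩
    · rw [mem_nY]; exact dom1 y m1.1
    · rw [mem_nZ]; exact dom2 z m1.2
  have hmw := hmax w hwc
  have hmu := hmax u hu
  have c1 := card_le_card hsub1
  have c2 := card_le_card hsub2
  have e1 : nY H x1 = nY H w := eq_of_subset_of_card_le hsub1 (by omega)
  have e2 : nZ H x1 = nZ H w := eq_of_subset_of_card_le hsub2 (by omega)
  have hwx : w = x1 := by
    by_contra hne
    have h5 := twins hsp x1 w (Ne.symm hne) (fun b => by rw [← mem_nY, ← mem_nY, e1])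
      (fun b => by rw [← mem_nZ, ← mem_nZ, e2])
    have h6 := star_le_pair H x1 w
    have h7 := nY_le_star H x1
    have h8 := nZ_le_star H x1
    omega
  exact chain hX hY hd m0.1 m1.1 m0.2 m1.2 hwx

/-- The bound for triple systems closed under directed Gumm operations. -/
theorem gumm [Fintype X] [Fintype Y] [Fintype Z] {s : ℕ} (hs : 1 ≤ s) (hsp : Sparse s H)
    (hX : DirectedGumm L dX qX) (hY : DirectedGumm L dY qY) (hZ : DirectedGumm L dZ qZ)
    (hd : ∀ l < L, ClosedUnder (dX l) (dY l) (dZ l) H) (hq : ClosedUnder qX qY qZ H) :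
    (H.card : ℝ) ≤ ((s : ℝ) - 1) ^ 2 * Fintype.card X + ((s : ℝ) - 1) ^ (L + 1) *
      Real.sqrt (Fintype.card X * Fintype.card Y * Fintype.card Z) := by
  classical
  set c := s - 1 with hc
  have hcr : ((s : ℝ) - 1) = (c : ℝ) := by
    rw [hc, Nat.cast_sub hs]; norm_num
  rw [hcr]
  set Xh := univ.filter fun x : X => s ≤ (nY H x).card ∧ s ≤ (nZ H x).card with hXh
  have hsum : H.card = ∑ x ∈ univ.filter (fun x : X => ¬ (s ≤ (nY H x).card ∧ s ≤ (nZ H x).card)),
      (star H x).card + ∑ x ∈ Xh, (star H x).card := by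
    have h1 : H.card = ∑ x : X, (star H x).card := by
      unfold star
      exact card_eq_sum_card_fiberwise (fun t _ => mem_univ _)
    rw [h1, hXh, add_comm, sum_filter_add_sum_filter_not]
  have hlow : ∑ x ∈ univ.filter (fun x : X => ¬ (s ≤ (nY H x).card ∧ s ≤ (nZ H x).card)),
      (star H x).card ≤ c ^ 2 * Fintype.card X := by
    calc _ ≤ ∑ x ∈ univ.filter (fun x : X => ¬ (s ≤ (nY H x).card ∧ s ≤ (nZ H x).card)), c ^ 2 := by
          apply sum_le_sum
          intro x hx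
          have h1 := (mem_filter.mp hx).2
          have h2 := star_le_Y hsp x
          have h3 := star_le_Z hsp x
          rw [not_and_or] at h1
          rw [sq]
          rcases h1 with h1 | h1
          · exact h2.trans (Nat.mul_le_mul_left _ (by omega))
          · exact h3.trans (Nat.mul_le_mul_left _ (by omega))
      _ = (univ.filter (fun x : X => ¬ (s ≤ (nY H x).card ∧ s ≤ (nZ H x).card))).card * c ^ 2 := by
          rw [sum_const, smul_eq_mul]
      _ ≤ Fintype.card X * c ^ 2 := Nat.mul_le_mul_right _ (card_le_univ _)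
      _ = _ := Nat.mul_comm _ _
  have hcount : ∑ x ∈ Xh, (nY H x).card * (nZ H x).card ≤
      Fintype.card Y * (Fintype.card Z * c ^ (2 * L)) := by
    have e1 : ∀ x ∈ Xh, (nY H x).card * (nZ H x).card =
        ∑ y : Y, ∑ z : Z, if y ∈ nY H x ∧ z ∈ nZ H x then 1 else 0 := by
      intro x _
      rw [← card_product, card_eq_sum_ones, ← sum_product', ← univ_product_univ.symm,
        ← sum_filter]
      congr 1
      ext p
      simp [mem_product]
    rw [sum_congr rfl e1, sum_comm]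
    calc ∑ y : Y, ∑ x ∈ Xh, ∑ z : Z, (if y ∈ nY H x ∧ z ∈ nZ H x then 1 else 0)
        = ∑ y : Y, ∑ z : Z, ∑ x ∈ Xh, (if y ∈ nY H x ∧ z ∈ nZ H x then 1 else 0) :=
          sum_congr rfl fun y _ => sum_comm
      _ ≤ ∑ _y : Y, ∑ _z : Z, c ^ (2 * L) := by
          refine sum_le_sum fun y _ => sum_le_sum fun z _ => ?_
          rw [← card_filter]
          rcases (Xh.filter fun x => y ∈ nY H x ∧ z ∈ nZ H x).eq_empty_or_nonempty with h0 | ⟨u, hu⟩
          · rw [h0]; simp
          · have hu' := mem_filter.mp hu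
            have hu'' := (mem_filter.mp hu'.1).2
            refine le_trans (card_le_card ?_) (common_card hs hsp hX hY hZ hd hq y z u
              (mem_filter.mpr ⟨mem_univ _, hu'.2⟩) hu''.1 hu''.2)
            intro x hx
            exact mem_filter.mpr ⟨mem_univ _, (mem_filter.mp hx).2⟩
      _ = _ := by
          rw [sum_const, sum_const, card_univ, card_univ, smul_eq_mul, smul_eq_mul]
  have hsq : ∑ x ∈ Xh, (star H x).card ^ 2 ≤
      c ^ 2 * (Fintype.card Y * (Fintype.card Z * c ^ (2 * L))) := by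
    calc ∑ x ∈ Xh, (star H x).card ^ 2 ≤ ∑ x ∈ Xh, c ^ 2 * ((nY H x).card * (nZ H x).card) := by
          refine sum_le_sum fun x _ => ?_
          calc (star H x).card ^ 2 = (star H x).card * (star H x).card := sq _
            _ ≤ (c * (nY H x).card) * (c * (nZ H x).card) :=
              Nat.mul_le_mul (star_le_Y hsp x) (star_le_Z hsp x)
            _ = _ := by ring
      _ = c ^ 2 * ∑ x ∈ Xh, (nY H x).card * (nZ H x).card := by rw [mul_sum]
      _ ≤ _ := Nat.mul_le_mul_left _ hcount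
  have hhigh : (∑ x ∈ Xh, (star H x).card) ^ 2 ≤
      c ^ (2 * L + 2) * (Fintype.card X * Fintype.card Y * Fintype.card Z) := by
    calc (∑ x ∈ Xh, (star H x).card) ^ 2 ≤ Xh.card * ∑ x ∈ Xh, (star H x).card ^ 2 :=
          sq_sum_le_card_mul_sum_sq
      _ ≤ Fintype.card X * (c ^ 2 * (Fintype.card Y * (Fintype.card Z * c ^ (2 * L)))) :=
          Nat.mul_le_mul (card_le_univ _) hsq
      _ = _ := by ring
  have hhr : ((∑ x ∈ Xh, (star H x).card : ℕ) : ℝ) ≤ (c : ℝ) ^ (L + 1) *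
      Real.sqrt (Fintype.card X * Fintype.card Y * Fintype.card Z) := by
    have h1 : ((∑ x ∈ Xh, (star H x).card : ℕ) : ℝ) ^ 2 ≤ ((c : ℝ) ^ (L + 1) *
        Real.sqrt (Fintype.card X * Fintype.card Y * Fintype.card Z)) ^ 2 := by
      rw [mul_pow, Real.sq_sqrt (by positivity), ← pow_mul]
      have h2 : (L + 1) * 2 = 2 * L + 2 := by ring
      rw [h2]
      exact_mod_cast hhigh
    exact le_of_sq_le_sq h1 (by positivity)
  have hlr : ((∑ x ∈ univ.filter (fun x : X => ¬ (s ≤ (nY H x).card ∧ s ≤ (nZ H x).card)),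
      (star H x).card : ℕ) : ℝ) ≤ (c : ℝ) ^ 2 * Fintype.card X := by exact_mod_cast hlow
  rw [hsum]
  push_cast at hlr hhr ⊢
  linarith

end main

end Pool.Agent.V11278.Rect
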