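import Pool.Agent.V11278.Rect.Gumm

set_option autoImplicit false
set_option linter.unusedSectionVars false

/-!
The uniform version and the example.
-/

namespace Pool.Agent.V11278.Rect

open Finset

section unif
variable {r : ℕ} {X : Fin r → Type*} [∀ i, DecidableEq (X i)] [∀ i, Fintype (X i)]

lemma trace_closed {m : ∀ i, X i → X i → X i → X i} {H : Finset (∀ i, X i)} (hH : ClosedU m H)
    (a b c : Fin r) : ClosedUnder (m a) (m b) (m c) (H.image (tr a b c)) := by
  intro p hp q hq t ht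
  obtain ⟨p', hp', rfl⟩ := mem_image.mp hp
  obtain ⟨q', hq', rfl⟩ := mem_image.mp hq
  obtain ⟨t', ht', rfl⟩ := mem_image.mp ht
  exact mem_image.mpr ⟨_, hH p' hp' q' hq' t' ht', rfl⟩

theorem gummU {L e : ℕ} (hr : 3 ≤ r) (he : 1 ≤ e) {H : Finset (∀ i, X i)} (hH : SparseU e H)
    {d : ∀ i, ℕ → X i → X i → X i → X i} {q : ∀ i, X i → X i → X i → X i}
    (hG : ∀ i, DirectedGumm L (d i) (q i)) (hd : ∀ l < L, ClosedU (fun i => d i l) H)
    (hq : ClosedU q H) (a b c : Fin r) (hab : a ≠ b) (hac : a ≠ c) (hbc : b ≠ c) :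
    (H.card : ℝ) ≤ ((e : ℝ) - 1) ^ 3 * Fintype.card (X a) + ((e : ℝ) - 1) ^ (L + 2) *
      Real.sqrt (Fintype.card (X a) * Fintype.card (X b) * Fintype.card (X c)) := by
  obtain ⟨g1, g2, -, -, -⟩ := trace_spec hr he hH a b c hab hac hbc
  have h1 := gumm he g1 (hG a) (hG b) (hG c) (fun l hl => trace_closed (hd l hl) a b c)
    (trace_closed hq a b c)
  have h2 : (H.card : ℝ) ≤ ((e : ℝ) - 1) * ((H.image (tr a b c)).card : ℝ) := by
    have : (H.card : ℝ) ≤ (((e - 1) * (H.image (tr a b c)).card : ℕ) : ℝ) := by exact_mod_cast g2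
    rw [Nat.cast_mul, Nat.cast_sub he] at this
    simpa using this
  have h0 : (0 : ℝ) ≤ (e : ℝ) - 1 := by
    have : (1 : ℝ) ≤ e := by exact_mod_cast he
    linarith
  calc (H.card : ℝ) ≤ ((e : ℝ) - 1) * ((H.image (tr a b c)).card : ℝ) := h2
    _ ≤ ((e : ℝ) - 1) * (((e : ℝ) - 1) ^ 2 * Fintype.card (X a) + ((e : ℝ) - 1) ^ (L + 1) *
      Real.sqrt (Fintype.card (X a) * Fintype.card (X b) * Fintype.card (X c))) :=
        mul_le_mul_of_nonneg_left h1 h0
    _ = _ := by ring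

end unif

/-- The componentwise operation on `A × B`. -/
def prodOp {A B : Type*} (m : A → A → A → A) (m' : B → B → B → B) :
    A × B → A × B → A × B → A × B :=
  fun a b c => (m a.1 b.1 c.1, m' a.2 b.2 c.2)

lemma prod_gumm {A B : Type*} {L : ℕ} {d : ℕ → A → A → A → A} {q : A → A → A → A}
    {d' : ℕ → B → B → B → B} {q' : B → B → B → B} (h : DirectedGumm L d q)
    (h' : DirectedGumm L d' q') :
    DirectedGumm L (fun l => prodOp (d l) (d' l)) (prodOp q q') := by
  obtain ⟨h1, h2, h3, h4⟩ := h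
  obtain ⟨k1, k2, k3, k4⟩ := h'
  refine ⟨?_, ?_, ?_, ?_⟩
  · intro l hl a b
    simp only [prodOp, h1 l hl, k1 l hl]
  · intro l hl a b
    simp only [prodOp, h2 l hl, k2 l hl]
    split_ifs <;> rfl
  · intro a b
    simp only [prodOp, h3, k3]
    split_ifs <;> rfl
  · intro a b
    simp only [prodOp, h4, k4]

end Pool.Agent.V11278.Rect
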