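import Pool.Agent.V11278.Rect.Uniform

set_option autoImplicit false
set_option linter.unusedSectionVars false

/-!
If all three shadows are rectangular and `s ≥ 30`, the number of triples is linear.
-/

namespace Pool.Agent.V11278.Rect

open Finset

variable {X Y Z : Type*} [DecidableEq X] [DecidableEq Y] [DecidableEq Z]

lemma sh12_sw {H : Finset (X × Y × Z)} (x : X) (y : Y) : sh12 (H.image sw) y x ↔ sh12 H x y := by
  simp only [sh12, mem_sw]

lemma sh13_sw {H : Finset (X × Y × Z)} (y : Y) (z : Z) : sh13 (H.image sw) y z ↔ sh23 H y z := by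
  simp only [sh13, sh23, mem_sw]

lemma sh12_ro {H : Finset (X × Y × Z)} (x : X) (z : Z) : sh12 (H.image ro) z x ↔ sh13 H x z := by
  simp only [sh12, sh13, mem_ro]

/-- the neighbours in `X` of `y` -/
def nXy (H : Finset (X × Y × Z)) (y : Y) : Finset X := nY (H.image sw) y
/-- the neighbours in `X` of `z` -/
def nXz (H : Finset (X × Y × Z)) (z : Z) : Finset X := nY (H.image ro) z

lemma mem_nXy {H : Finset (X × Y × Z)} {x : X} {y : Y} : x ∈ nXy H y ↔ sh12 H x y := by
  unfold nXy; rw [mem_nY, sh12_sw]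

lemma mem_nXz {H : Finset (X × Y × Z)} {x : X} {z : Z} : x ∈ nXz H z ↔ sh13 H x z := by
  unfold nXz; rw [mem_nY, sh12_ro]

lemma nY_le_star (H : Finset (X × Y × Z)) (x : X) : (nY H x).card ≤ (star H x).card :=
  card_image_le

lemma star_le_pair (H : Finset (X × Y × Z)) (x x' : X) :
    (star H x).card ≤ (H.filter fun t => t.1 = x ∨ t.1 = x').card := by
  apply card_le_card
  intro t ht
  have := mem_filter.mp ht
  exact mem_filter.mpr ⟨this.1, Or.inl this.2⟩

/-- Twins in `X` with at least `s` neighbours in `Y` are equal. -/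
lemma twinX {s : ℕ} {H : Finset (X × Y × Z)} (hH : Sparse s H) {x x' : X}
    (h1 : ∀ y, sh12 H x y ↔ sh12 H x' y) (h2 : ∀ z, sh13 H x z ↔ sh13 H x' z)
    (hs : s ≤ (nY H x).card) : x = x' := by
  by_contra hne
  have a1 := twins hH x x' hne h1 h2
  have a2 := nY_le_star H x
  have a3 := star_le_pair H x x'
  omega

lemma twinY {s : ℕ} {H : Finset (X × Y × Z)} (hH : Sparse s H) {y y' : Y}
    (h1 : ∀ x, sh12 H x y ↔ sh12 H x y') (h2 : ∀ z, sh23 H y z ↔ sh23 H y' z)
    (hs : s ≤ (nXy H y).card) : y = y' := by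
  apply twinX (sparse_sw hH) (s := s) (H := H.image sw) _ _ hs
  · intro x; rw [sh12_sw, sh12_sw]; exact h1 x
  · intro z; rw [sh13_sw, sh13_sw]; exact h2 z

/-- In a rectangular relation, two points with a common neighbour have the same neighbours. -/
lemma rect_iff {A B : Type*} {R : A → B → Prop} (hR : Rectangular R) {a a' : A} {b : B}
    (h : R a b) (h' : R a' b) (b' : B) : R a b' ↔ R a' b' :=
  ⟨fun h1 => hR a' a b b' h' h h1, fun h1 => hR a a' b b' h h' h1⟩

lemma rect_iff' {A B : Type*} {R : A → B → Prop} (hR : Rectangular R) {a : A} {b b' : B}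
    (h : R a b) (h' : R a b') (a' : A) : R a' b ↔ R a' b' :=
  ⟨fun h1 => hR a' a b b' h1 h h', fun h1 => hR a' a b' b h1 h' h⟩

lemma exists_three {A : Type*} [DecidableEq A] (S : Finset A) (a : A) (ha : a ∈ S)
    (hS : 3 ≤ S.card) : ∃ f : Fin 3 → A, f 0 = a ∧ Function.Injective f ∧ ∀ i, f i ∈ S := by
  have h1 : 2 ≤ (S.erase a).card := by rw [card_erase_of_mem ha]; omega
  obtain ⟨T, hT, hc⟩ := exists_subset_card_eq h1
  obtain ⟨b, c, hbc, rfl⟩ := card_eq_two.mp hc
  have hb := mem_erase.mp (hT (mem_insert_self b {c}))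
  have hcc := mem_erase.mp (hT (mem_insert_of_mem (mem_singleton_self c)))
  refine ⟨![a, b, c], rfl, ?_, ?_⟩
  · intro i j hij
    fin_cases i <;> fin_cases j <;> simp_all [eq_comm]
  · intro i
    fin_cases i
    · exact ha
    · exact hb.2
    · exact hcc.2

theorem core {s : ℕ} (hs : 30 ≤ s) {H : Finset (X × Y × Z)} (hH : Sparse s H)
    (hR : Rectangular (sh12 H)) (hS : Rectangular (sh13 H)) (hQ : Rectangular (sh23 H))
    {x0 : X} {y0 : Y} {z0 : Z} (h0 : (x0, y0, z0) ∈ H) (hB : s ≤ (nY H x0).card)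
    (hA : s ≤ (nXy H y0).card) (hA' : s ≤ (nXz H z0).card) : False := by
  have e12 : ∀ {x y z}, (x, y, z) ∈ H → sh12 H x y := fun h => ⟨_, h⟩
  have e13 : ∀ {x y z}, (x, y, z) ∈ H → sh13 H x z := fun h => ⟨_, h⟩
  have e23 : ∀ {x y z}, (x, y, z) ∈ H → sh23 H y z := fun h => ⟨_, h⟩
  obtain ⟨a, ha0, hainj, haA⟩ := exists_three (nXy H y0) x0 (mem_nXy.mpr (e12 h0)) (by omega)
  obtain ⟨a', ha0', hainj', haA'⟩ := exists_three (nXz H z0) x0 (mem_nXz.mpr (e13 h0)) (by omega)
  have haR : ∀ j, sh12 H (a j) y0 := fun j => mem_nXy.mp (haA j)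
  have haS : ∀ i, sh13 H (a' i) z0 := fun i => mem_nXz.mp (haA' i)
  have hBm : ∀ y, y ∈ nY H x0 ↔ sh12 H x0 y := mem_nY H x0
  -- step 3
  have h3 : ∀ j, ∀ y, ∃ z, y ∈ nY H x0 → (a j, y, z) ∈ H := by
    intro j y
    by_cases hy : y ∈ nY H x0
    · have : sh12 H (a j) y := (rect_iff hR (haR j) (e12 h0) y).mpr ((hBm y).mp hy)
      obtain ⟨z, hz⟩ := this
      exact ⟨z, fun _ => hz⟩
    · exact ⟨z0, fun h => absurd h hy⟩
  choose zf hzf using h3
  -- step 4
  have h4 : ∀ i, ∀ y, ∃ y', y ∈ nY H x0 → (a' i, y', zf 0 y) ∈ H := by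
    intro i y
    by_cases hy : y ∈ nY H x0
    · have h5 := hzf 0 y hy
      rw [ha0] at h5
      have : sh13 H (a' i) (zf 0 y) := (rect_iff hS (haS i) (e13 h0) _).mpr (e13 h5)
      obtain ⟨y', hy'⟩ := this
      exact ⟨y', fun _ => hy'⟩
    · exact ⟨y0, fun h => absurd h hy⟩
  choose yf hyf using h4
  -- step 5
  have hq : ∀ i j y, y ∈ nY H x0 → sh23 H (yf i y) (zf j y) := by
    intro i j y hy
    exact (rect_iff hQ (e23 (hyf i y hy)) (e23 (hzf 0 y hy)) _).mpr (e23 (hzf j y hy))
  have h5 : ∀ i j y, ∃ x, y ∈ nY H x0 → (x, yf i y, zf j y) ∈ H := by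
    intro i j y
    by_cases hy : y ∈ nY H x0
    · obtain ⟨x, hx⟩ := hq i j y hy
      exact ⟨x, fun _ => hx⟩
    · exact ⟨x0, fun h => absurd h hy⟩
  choose xf hxf using h5
  -- elements of `B` are distinguished by their neighbours in `Z`
  have hBdist : ∀ y ∈ nY H x0, ∀ y' ∈ nY H x0, (∀ z, sh23 H y z ↔ sh23 H y' z) → y = y' := by
    intro y hy y' hy' h
    have hyy : ∀ x, sh12 H x y ↔ sh12 H x y' :=
      rect_iff' hR ((hBm y).mp hy) ((hBm y').mp hy')
    have hy0 : ∀ x, sh12 H x y ↔ sh12 H x y0 := rect_iff' hR ((hBm y).mp hy) (e12 h0)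
    apply twinY hH hyy h
    have : nXy H y = nXy H y0 := by
      ext x; rw [mem_nXy, mem_nXy]; exact hy0 x
    rw [this]; exact hA
  have hyfinj : ∀ i, ∀ y ∈ nY H x0, ∀ y' ∈ nY H x0, yf i y = yf i y' → y = y' := by
    intro i y hy y' hy' he
    apply hBdist y hy y' hy'
    intro z
    have a1 := rect_iff hQ (e23 (hzf 0 y hy)) (e23 (hyf i y hy)) z
    have a2 := rect_iff hQ (e23 (hzf 0 y' hy')) (e23 (hyf i y' hy')) z
    rw [a1, a2, he]
  have hbig : ∀ i, s ≤ (nY H (a' i)).card := by
    intro i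
    refine hB.trans ?_
    apply card_le_card_of_injOn (yf i)
    · intro y hy
      exact mem_coe.mpr ((mem_nY _ _ _).mpr (e12 (hyf i y (mem_coe.mp hy))))
    · intro y hy y' hy' he
      exact hyfinj i y (mem_coe.mp hy) y' (mem_coe.mp hy') he
  have hbig2 : ∀ j, s ≤ (nY H (a j)).card := by
    intro j
    have : nY H (a j) = nY H x0 := by
      ext y; rw [mem_nY, mem_nY]; exact rect_iff hR (haR j) (e12 h0) y
    rw [this]; exact hB
  have hy0B : y0 ∈ nY H x0 := (hBm y0).mpr (e12 h0)
  -- step 6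
  have hconst : ∀ i j, ∀ y ∈ nY H x0, xf i j y0 = xf i j y := by
    intro i j y hy
    have b1 : ∀ u ∈ nY H x0, ∀ y'', sh12 H (xf i j u) y'' ↔ sh12 H (a' i) y'' := fun u hu =>
      rect_iff hR (e12 (hxf i j u hu)) (e12 (hyf i u hu))
    have b2 : ∀ u ∈ nY H x0, ∀ z'', sh13 H (xf i j u) z'' ↔ sh13 H (a j) z'' := fun u hu =>
      rect_iff hS (e13 (hxf i j u hu)) (e13 (hzf j u hu))
    apply twinX hH
    · intro y''; rw [b1 y0 hy0B, b1 y hy]
    · intro z''; rw [b2 y0 hy0B, b2 y hy]
    · have : nY H (xf i j y0) = nY H (a' i) := by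
        ext y''; rw [mem_nY, mem_nY]; exact b1 y0 hy0B y''
      rw [this]; exact hbig i
  -- step 7
  obtain ⟨L, hL, hLc⟩ := exists_subset_card_eq (s := nY H x0) (n := (s + 8) / 9) (by omega)
  let F : Fin 3 × Fin 3 × Y → X × Y × Z := fun u => (xf u.1 u.2.1 y0, yf u.1 u.2.2, zf u.2.1 u.2.2)
  have hFH : ∀ u, u.2.2 ∈ nY H x0 → F u ∈ H := by
    intro u hu
    have := hxf u.1 u.2.1 u.2.2 hu
    rw [← hconst u.1 u.2.1 u.2.2 hu] at this
    exact this
  have hFinj : Set.InjOn F ((univ : Finset (Fin 3)) ×ˢ ((univ : Finset (Fin 3)) ×ˢ L) :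
      Finset (Fin 3 × Fin 3 × Y)) := by
    rintro ⟨i, j, y⟩ hu ⟨i', j', y'⟩ hu' he
    have hy : y ∈ nY H x0 := hL (mem_product.mp (mem_product.mp (mem_coe.mp hu)).2).2
    have hy' : y' ∈ nY H x0 := hL (mem_product.mp (mem_product.mp (mem_coe.mp hu')).2).2
    simp only [F, Prod.mk.injEq] at he
    obtain ⟨-, h6, h7⟩ := he
    have hi : i = i' := by
      apply hainj'
      apply twinX hH _ _ (hbig i)
      · exact rect_iff hR (e12 (hyf i y hy)) (by rw [h6]; exact e12 (hyf i' y' hy'))
      · exact rect_iff hS (haS i) (haS i')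
    subst hi
    have hyy := hyfinj i y hy y' hy' h6
    subst hyy
    have hj : j = j' := by
      apply hainj
      apply twinX hH _ _ (hbig2 j)
      · exact rect_iff hR (haR j) (haR j')
      · exact rect_iff hS (e13 (hzf j y hy)) (by rw [h7]; exact e13 (hzf j' y hy))
    subst hj
    rfl
  set T0 := ((univ : Finset (Fin 3)) ×ˢ ((univ : Finset (Fin 3)) ×ˢ L)).image F with hT0
  have hT0c : T0.card = 9 * ((s + 8) / 9) := by
    rw [hT0, card_image_of_injOn hFinj, card_product, card_product, hLc, card_univ, Fintype.card_fin]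
    ring
  obtain ⟨T, hT, hTc⟩ := exists_subset_card_eq (s := T0) (n := s) (by omega)
  have hTH : T ⊆ H := by
    intro t ht
    obtain ⟨u, hu, rfl⟩ := mem_image.mp (hT ht)
    exact hFH u (hL (mem_product.mp (mem_product.mp hu).2).2)
  have hsp := hH T hTH hTc
  have c1 : (T.image fun t => t.1).card ≤ 9 := by
    have : (T.image fun t => t.1) ⊆
        ((univ : Finset (Fin 3)) ×ˢ (univ : Finset (Fin 3))).image (fun v => xf v.1 v.2 y0) := by
      intro x hx
      obtain ⟨t, ht, rfl⟩ := mem_image.mp hx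
      obtain ⟨u, hu, rfl⟩ := mem_image.mp (hT ht)
      exact mem_image.mpr ⟨(u.1, u.2.1), by simp, rfl⟩
    refine (card_le_card this).trans (card_image_le.trans ?_)
    rw [card_product, card_univ, Fintype.card_fin]
  have c2 : (T.image fun t => t.2.1).card ≤ 3 * ((s + 8) / 9) := by
    have : (T.image fun t => t.2.1) ⊆
        ((univ : Finset (Fin 3)) ×ˢ L).image (fun v => yf v.1 v.2) := by
      intro x hx
      obtain ⟨t, ht, rfl⟩ := mem_image.mp hx
      obtain ⟨u, hu, rfl⟩ := mem_image.mp (hT ht)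
      exact mem_image.mpr ⟨(u.1, u.2.2), by
        simp only [mem_product, mem_univ, true_and]
        exact (mem_product.mp (mem_product.mp hu).2).2, rfl⟩
    refine (card_le_card this).trans (card_image_le.trans ?_)
    rw [card_product, card_univ, Fintype.card_fin, hLc]
  have c3 : (T.image fun t => t.2.2).card ≤ 3 * ((s + 8) / 9) := by
    have : (T.image fun t => t.2.2) ⊆
        ((univ : Finset (Fin 3)) ×ˢ L).image (fun v => zf v.1 v.2) := by
      intro x hx
      obtain ⟨t, ht, rfl⟩ := mem_image.mp hx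
      obtain ⟨u, hu, rfl⟩ := mem_image.mp (hT ht)
      exact mem_image.mpr ⟨(u.2.1, u.2.2), by
        simp only [mem_product, mem_univ, true_and]
        exact (mem_product.mp (mem_product.mp hu).2).2, rfl⟩
    refine (card_le_card this).trans (card_image_le.trans ?_)
    rw [card_product, card_univ, Fintype.card_fin, hLc]
  unfold spanned at hsp
  omega

lemma star_sw (H : Finset (X × Y × Z)) (y : Y) :
    (star (H.image sw) y).card = (H.filter fun t => t.2.1 = y).card := by
  have : star (H.image sw) y = (H.filter fun t => t.2.1 = y).image sw := by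
    ext t
    unfold star
    simp only [mem_filter, mem_image]
    constructor
    · rintro ⟨⟨u, hu, rfl⟩, h⟩; exact ⟨u, ⟨hu, h⟩, rfl⟩
    · rintro ⟨u, ⟨hu, h⟩, rfl⟩; exact ⟨⟨u, hu, rfl⟩, h⟩
  rw [this, card_image_of_injective _ sw_inj]

lemma star_ro (H : Finset (X × Y × Z)) (z : Z) :
    (star (H.image ro) z).card = (H.filter fun t => t.2.2 = z).card := by
  have : star (H.image ro) z = (H.filter fun t => t.2.2 = z).image ro := by
    ext t
    unfold star
    simp only [mem_filter, mem_image]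
    constructor
    · rintro ⟨⟨u, hu, rfl⟩, h⟩; exact ⟨u, ⟨hu, h⟩, rfl⟩
    · rintro ⟨u, ⟨hu, h⟩, rfl⟩; exact ⟨⟨u, hu, rfl⟩, h⟩
  rw [this, card_image_of_injective _ ro_inj]

/-- All three shadows rectangular and `s ≥ 30`: the number of triples is linear. -/
theorem linear [Fintype X] [Fintype Y] [Fintype Z] {s n : ℕ} (hs : 30 ≤ s)
    {H : Finset (X × Y × Z)} (hH : Sparse s H)
    (hR : Rectangular (sh12 H)) (hS : Rectangular (sh13 H)) (hQ : Rectangular (sh23 H))
    (hX : Fintype.card X ≤ n) (hY : Fintype.card Y ≤ n) (hZ : Fintype.card Z ≤ n) :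
    H.card ≤ 3 * (s - 1) ^ 2 * n := by
  classical
  have hcov : H ⊆ (H.filter fun t => (nY H t.1).card < s) ∪
      ((H.filter fun t => (nXy H t.2.1).card < s) ∪ (H.filter fun t => (nXz H t.2.2).card < s)) := by
    intro t ht
    by_contra hcon
    simp only [mem_union, mem_filter, ht, true_and, not_or, not_lt] at hcon
    exact core hs hH hR hS hQ (x0 := t.1) (y0 := t.2.1) (z0 := t.2.2) ht hcon.1 hcon.2.1 hcon.2.2
  have h1 : (H.filter fun t => (nY H t.1).card < s).card ≤ (s - 1) ^ 2 * n := by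
    have := card_le_mul_card_image (f := fun t : X × Y × Z => t.1)
      (s := H.filter fun t => (nY H t.1).card < s) ((s - 1) ^ 2) (by
        intro x hx
        obtain ⟨t, ht, rfl⟩ := mem_image.mp hx
        have h2 := (mem_filter.mp ht).2
        have h3 : ((H.filter fun t => (nY H t.1).card < s).filter fun u => u.1 = t.1).card ≤
            (star H t.1).card := by
          apply card_le_card
          intro u hu
          have h4 := mem_filter.mp hu
          exact mem_filter.mpr ⟨(mem_filter.mp h4.1).1, h4.2⟩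
        have h5 := star_le_Y hH t.1
        calc _ ≤ (star H t.1).card := h3
          _ ≤ (s - 1) * (nY H t.1).card := h5
          _ ≤ (s - 1) * (s - 1) := Nat.mul_le_mul_left _ (by omega)
          _ = (s - 1) ^ 2 := by ring)
    exact this.trans (Nat.mul_le_mul_left _ ((card_le_univ _).trans hX))
  have h2 : (H.filter fun t => (nXy H t.2.1).card < s).card ≤ (s - 1) ^ 2 * n := by
    have := card_le_mul_card_image (f := fun t : X × Y × Z => t.2.1)
      (s := H.filter fun t => (nXy H t.2.1).card < s) ((s - 1) ^ 2) (by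
        intro x hx
        obtain ⟨t, ht, rfl⟩ := mem_image.mp hx
        have h2 := (mem_filter.mp ht).2
        have h3 : ((H.filter fun t => (nXy H t.2.1).card < s).filter
            fun u => u.2.1 = t.2.1).card ≤ (H.filter fun u => u.2.1 = t.2.1).card := by
          apply card_le_card
          intro u hu
          have h4 := mem_filter.mp hu
          exact mem_filter.mpr ⟨(mem_filter.mp h4.1).1, h4.2⟩
        have h5 := star_le_Y (sparse_sw hH) t.2.1
        rw [star_sw] at h5
        calc _ ≤ (H.filter fun u => u.2.1 = t.2.1).card := h3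
          _ ≤ (s - 1) * (nXy H t.2.1).card := h5
          _ ≤ (s - 1) * (s - 1) := Nat.mul_le_mul_left _ (by omega)
          _ = (s - 1) ^ 2 := by ring)
    exact this.trans (Nat.mul_le_mul_left _ ((card_le_univ _).trans hY))
  have h3 : (H.filter fun t => (nXz H t.2.2).card < s).card ≤ (s - 1) ^ 2 * n := by
    have := card_le_mul_card_image (f := fun t : X × Y × Z => t.2.2)
      (s := H.filter fun t => (nXz H t.2.2).card < s) ((s - 1) ^ 2) (by
        intro x hx
        obtain ⟨t, ht, rfl⟩ := mem_image.mp hx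
        have h2 := (mem_filter.mp ht).2
        have h3 : ((H.filter fun t => (nXz H t.2.2).card < s).filter
            fun u => u.2.2 = t.2.2).card ≤ (H.filter fun u => u.2.2 = t.2.2).card := by
          apply card_le_card
          intro u hu
          have h4 := mem_filter.mp hu
          exact mem_filter.mpr ⟨(mem_filter.mp h4.1).1, h4.2⟩
        have h5 := star_le_Y (sparse_ro hH) t.2.2
        rw [star_ro] at h5
        calc _ ≤ (H.filter fun u => u.2.2 = t.2.2).card := h3
          _ ≤ (s - 1) * (nXz H t.2.2).card := h5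
          _ ≤ (s - 1) * (s - 1) := Nat.mul_le_mul_left _ (by omega)
          _ = (s - 1) ^ 2 := by ring)
    exact this.trans (Nat.mul_le_mul_left _ ((card_le_univ _).trans hZ))
  have h4 := card_le_card hcov
  have h5 := card_union_le (H.filter fun t => (nY H t.1).card < s)
    ((H.filter fun t => (nXy H t.2.1).card < s) ∪ (H.filter fun t => (nXz H t.2.2).card < s))
  have h6 := card_union_le (H.filter fun t => (nXy H t.2.1).card < s)
    (H.filter fun t => (nXz H t.2.2).card < s)
  calc H.card ≤ (s - 1) ^ 2 * n + ((s - 1) ^ 2 * n + (s - 1) ^ 2 * n) := by omega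
    _ = 3 * (s - 1) ^ 2 * n := by ring

theorem linearU {r : ℕ} {X : Fin r → Type*} [∀ i, DecidableEq (X i)] [∀ i, Fintype (X i)]
    {e n : ℕ} (hr : 3 ≤ r) (he : 30 ≤ e) {H : Finset (∀ i, X i)} (hH : SparseU e H)
    (a b c : Fin r) (hab : a ≠ b) (hac : a ≠ c) (hbc : b ≠ c)
    (h12 : Rectangular (sh H a b)) (h13 : Rectangular (sh H a c)) (h23 : Rectangular (sh H b c))
    (ha : Fintype.card (X a) ≤ n) (hb : Fintype.card (X b) ≤ n) (hc : Fintype.card (X c) ≤ n) :
    H.card ≤ 3 * (e - 1) ^ 3 * n := by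
  obtain ⟨g1, g2, g3, g4, g5⟩ := trace_spec hr (by omega) hH a b c hab hac hbc
  calc H.card ≤ (e - 1) * (3 * (e - 1) ^ 2 * n) :=
        g2.trans (Nat.mul_le_mul_left _
          (linear he g1 (by rw [g3]; exact h12) (by rw [g4]; exact h13) (by rw [g5]; exact h23)
            ha hb hc))
    _ = _ := by ring

lemma sparseU_mono {r : ℕ} {X : Fin r → Type*} [∀ i, DecidableEq (X i)]
    {e : ℕ} {H H' : Finset (∀ i, X i)} (hH : SparseU e H) (h : H' ⊆ H) : SparseU e H' :=
  fun T hT hc => hH T (hT.trans h) hc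

end Pool.Agent.V11278.Rect
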