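import Pool.Agent.V11278.Rect.Upper

set_option autoImplicit false
set_option linter.unusedSectionVars false

/-!
Coordinate changes and the `r`-uniform version.
-/

namespace Pool.Agent.V11278.Rect

open Finset

/-! ### The three pairs of shadows -/

section perm
variable {X Y Z : Type*} [DecidableEq X] [DecidableEq Y] [DecidableEq Z]

/-- At least two of the three shadows are rectangular. -/
def TwoRect (H : Finset (X × Y × Z)) : Prop :=
  (Rectangular (sh12 H) ∧ Rectangular (sh13 H)) ∨ (Rectangular (sh12 H) ∧ Rectangular (sh23 H)) ∨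
    (Rectangular (sh13 H) ∧ Rectangular (sh23 H))

/-- exchange the first two coordinates -/
def sw (t : X × Y × Z) : Y × X × Z := (t.2.1, t.1, t.2.2)

/-- bring the third coordinate to the front -/
def ro (t : X × Y × Z) : Z × X × Y := (t.2.2, t.1, t.2.1)

lemma sw_inj : Function.Injective (sw (X := X) (Y := Y) (Z := Z)) := by
  rintro ⟨a, b, c⟩ ⟨a', b', c'⟩ h
  simp only [sw, Prod.mk.injEq] at h
  obtain ⟨h1, h2, h3⟩ := h
  rw [h1, h2, h3]

lemma ro_inj : Function.Injective (ro (X := X) (Y := Y) (Z := Z)) := by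
  rintro ⟨a, b, c⟩ ⟨a', b', c'⟩ h
  simp only [ro, Prod.mk.injEq] at h
  obtain ⟨h1, h2, h3⟩ := h
  rw [h1, h2, h3]

lemma sparse_sw {s : ℕ} {H : Finset (X × Y × Z)} (hH : Sparse s H) : Sparse s (H.image sw) := by
  intro T hT hc
  obtain ⟨T', hT', rfl⟩ := subset_image_iff.mp hT
  rw [card_image_of_injective _ sw_inj] at hc
  have := hH T' hT' hc
  unfold spanned at this ⊢
  rw [image_image, image_image, image_image]
  have e1 : ((fun t : Y × X × Z => t.1) ∘ sw) = fun t : X × Y × Z => t.2.1 := rfl
  have e2 : ((fun t : Y × X × Z => t.2.1) ∘ sw) = fun t : X × Y × Z => t.1 := rfl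
  have e3 : ((fun t : Y × X × Z => t.2.2) ∘ sw) = fun t : X × Y × Z => t.2.2 := rfl
  rw [e1, e2, e3]
  omega

lemma sparse_ro {s : ℕ} {H : Finset (X × Y × Z)} (hH : Sparse s H) : Sparse s (H.image ro) := by
  intro T hT hc
  obtain ⟨T', hT', rfl⟩ := subset_image_iff.mp hT
  rw [card_image_of_injective _ ro_inj] at hc
  have := hH T' hT' hc
  unfold spanned at this ⊢
  rw [image_image, image_image, image_image]
  have e1 : ((fun t : Z × X × Y => t.1) ∘ ro) = fun t : X × Y × Z => t.2.2 := rfl
  have e2 : ((fun t : Z × X × Y => t.2.1) ∘ ro) = fun t : X × Y × Z => t.1 := rfl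
  have e3 : ((fun t : Z × X × Y => t.2.2) ∘ ro) = fun t : X × Y × Z => t.2.1 := rfl
  rw [e1, e2, e3]
  omega

lemma mem_sw {H : Finset (X × Y × Z)} {x : X} {y : Y} {z : Z} :
    (y, x, z) ∈ H.image sw ↔ (x, y, z) ∈ H := by
  constructor
  · intro h
    obtain ⟨t, ht, he⟩ := mem_image.mp h
    have : sw t = sw (x, y, z) := he
    rw [← sw_inj this]; exact ht
  · intro h; exact mem_image.mpr ⟨_, h, rfl⟩

lemma mem_ro {H : Finset (X × Y × Z)} {x : X} {y : Y} {z : Z} :
    (z, x, y) ∈ H.image ro ↔ (x, y, z) ∈ H := by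
  constructor
  · intro h
    obtain ⟨t, ht, he⟩ := mem_image.mp h
    have : ro t = ro (x, y, z) := he
    rw [← ro_inj this]; exact ht
  · intro h; exact mem_image.mpr ⟨_, h, rfl⟩

lemma rect_flip {A B : Type*} {R : A → B → Prop} (h : Rectangular R) :
    Rectangular (fun b a => R a b) := by
  intro b b' a a' h1 h2 h3
  exact h a' a b' b h3 h2 h1

theorem upper_two [Fintype X] [Fintype Y] [Fintype Z] {s n : ℕ} (hs : 1 ≤ s)
    {H : Finset (X × Y × Z)} (hH : Sparse s H) (h : TwoRect H)
    (hX : Fintype.card X ≤ n) (hY : Fintype.card Y ≤ n) (hZ : Fintype.card Z ≤ n) :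
    H.card ≤ (s - 1) * (n + 2 * n * Nat.sqrt n) := by
  rcases h with ⟨h1, h2⟩ | ⟨h1, h2⟩ | ⟨h1, h2⟩
  · exact upper hs hH h1 h2 hX hY hZ
  · rw [← card_image_of_injective H sw_inj]
    refine upper hs (sparse_sw hH) ?_ ?_ hY hX hZ
    · have e : sh12 (H.image sw) = fun y x => sh12 H x y := by
        funext y x
        simp only [sh12, mem_sw]
      rw [e]; exact rect_flip h1
    · have e : sh13 (H.image sw) = sh23 H := by
        funext y z
        simp only [sh13, sh23, mem_sw]
      rw [e]; exact h2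
  · rw [← card_image_of_injective H ro_inj]
    refine upper hs (sparse_ro hH) ?_ ?_ hZ hX hY
    · have e : sh12 (H.image ro) = fun z x => sh13 H x z := by
        funext z x
        simp only [sh12, sh13, mem_ro]
      rw [e]; exact rect_flip h1
    · have e : sh13 (H.image ro) = fun z y => sh23 H y z := by
        funext z y
        simp only [sh13, sh23, mem_ro]
      rw [e]; exact rect_flip h2

end perm

/-! ### Uniform hypergraphs -/

section unif
variable {r : ℕ} {X : Fin r → Type*} [∀ i, DecidableEq (X i)]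

/-- Number of vertices of the union of the edges in `T`. -/
def spannedU (T : Finset (∀ i, X i)) : ℕ := ∑ i, (T.image fun h => h i).card

/-- Any `e` edges have a union of more than `(r - 2) e + 3` vertices. -/
def SparseU (e : ℕ) (H : Finset (∀ i, X i)) : Prop :=
  ∀ T ⊆ H, T.card = e → (r - 2) * e + 3 < spannedU T

/-- The shadow between the parts `a` and `b`. -/
def sh (H : Finset (∀ i, X i)) (a b : Fin r) (x : X a) (y : X b) : Prop :=
  ∃ h ∈ H, h a = x ∧ h b = y

def tr (a b c : Fin r) (h : ∀ i, X i) : X a × X b × X c := (h a, h b, h c)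

lemma sum_three (a b c : Fin r) (hab : a ≠ b) (hac : a ≠ c) (hbc : b ≠ c) (f : Fin r → ℕ) (M : ℕ)
    (hf : ∀ i, f i ≤ M) : ∑ i, f i ≤ f a + f b + f c + (r - 3) * M := by
  rw [← add_sum_erase univ f (mem_univ a),
    ← add_sum_erase (univ.erase a) f (mem_erase.mpr ⟨hab.symm, mem_univ b⟩),
    ← add_sum_erase ((univ.erase a).erase b) f
      (mem_erase.mpr ⟨hbc.symm, mem_erase.mpr ⟨hac.symm, mem_univ c⟩⟩)]
  have h1 : ∑ i ∈ ((univ.erase a).erase b).erase c, f i ≤ (r - 3) * M := by
    refine (sum_le_card_nsmul _ _ M (fun i _ => hf i)).trans (le_of_eq ?_)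
    rw [smul_eq_mul, card_erase_of_mem (mem_erase.mpr ⟨hbc.symm, mem_erase.mpr ⟨hac.symm, mem_univ c⟩⟩),
      card_erase_of_mem (mem_erase.mpr ⟨hab.symm, mem_univ b⟩), card_erase_of_mem (mem_univ a),
      card_univ, Fintype.card_fin]
    congr 1
  omega

/-- The trace of a sparse hypergraph on three of its parts. -/
theorem trace_spec {e : ℕ} (hr : 3 ≤ r) (he : 1 ≤ e) {H : Finset (∀ i, X i)} (hH : SparseU e H)
    (a b c : Fin r) (hab : a ≠ b) (hac : a ≠ c) (hbc : b ≠ c) :
    Sparse e (H.image (tr a b c)) ∧ H.card ≤ (e - 1) * (H.image (tr a b c)).card ∧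
      sh12 (H.image (tr a b c)) = sh H a b ∧ sh13 (H.image (tr a b c)) = sh H a c ∧
      sh23 (H.image (tr a b c)) = sh H b c := by
  classical
  set H' := H.image (tr a b c) with hH'
  have hre : (r - 2) * e = (r - 3) * e + e := by
    obtain ⟨k, rfl⟩ := Nat.exists_eq_add_of_le hr
    have h1 : 3 + k - 2 = k + 1 := by omega
    have h2 : 3 + k - 3 = k := by omega
    rw [h1, h2]; ring
  -- the trace is sparse
  have hsp : Sparse e H' := by
    intro T' hT' hcard
    obtain ⟨g, hg⟩ : ∃ g : X a × X b × X c → (∀ i, X i), ∀ t ∈ T', g t ∈ H ∧ tr a b c (g t) = t := by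
      by_cases hne : T'.Nonempty
      · obtain ⟨t0, ht0⟩ := hne
        obtain ⟨h0, hh0, -⟩ := mem_image.mp (hT' ht0)
        have : ∀ t, ∃ h : (∀ i, X i), t ∈ T' → h ∈ H ∧ tr a b c h = t := by
          intro t
          by_cases ht : t ∈ T'
          · obtain ⟨h, hh, he⟩ := mem_image.mp (hT' ht)
            exact ⟨h, fun _ => ⟨hh, he⟩⟩
          · exact ⟨h0, fun h => absurd h ht⟩
        choose g hg using this
        exact ⟨g, hg⟩
      · rw [not_nonempty_iff_eq_empty] at hne
        rw [hne, card_empty] at hcard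
        omega
    have hginj : Set.InjOn g (T' : Set (X a × X b × X c)) := by
      intro t ht t' ht' he
      rw [← (hg t ht).2, ← (hg t' ht').2, he]
    have hTc : (T'.image g).card = e := by rw [card_image_of_injOn hginj, hcard]
    have hTs : T'.image g ⊆ H := by
      intro h hh
      obtain ⟨t, ht, rfl⟩ := mem_image.mp hh
      exact (hg t ht).1
    have h1 := hH _ hTs hTc
    have h2 := sum_three a b c hab hac hbc (fun i => ((T'.image g).image fun h => h i).card) e
      (fun i => by
        have := card_image_le (s := T'.image g) (f := fun h : (∀ i, X i) => h i)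
        omega)
    have e1 : ((T'.image g).image fun h => h a) = T'.image fun t => t.1 := by
      rw [image_image]
      apply image_congr
      intro t ht
      have := (hg t ht).2
      exact congrArg (fun u : X a × X b × X c => u.1) this
    have e2 : ((T'.image g).image fun h => h b) = T'.image fun t => t.2.1 := by
      rw [image_image]
      apply image_congr
      intro t ht
      have := (hg t ht).2
      exact congrArg (fun u : X a × X b × X c => u.2.1) this
    have e3 : ((T'.image g).image fun h => h c) = T'.image fun t => t.2.2 := by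
      rw [image_image]
      apply image_congr
      intro t ht
      have := (hg t ht).2
      exact congrArg (fun u : X a × X b × X c => u.2.2) this
    unfold spannedU at h1
    simp only [e1, e2, e3] at h2
    unfold spanned
    omega
  -- multiplicity
  have hmul : H.card ≤ (e - 1) * H'.card := by
    rw [hH']
    apply card_le_mul_card_image
    intro t _
    by_contra hcon
    have h0 : e ≤ (H.filter fun h => tr a b c h = t).card := by omega
    obtain ⟨T, hT, hTc⟩ := exists_subset_card_eq h0
    have h1 := hH T (hT.trans (filter_subset _ _)) hTc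
    have h2 := sum_three a b c hab hac hbc (fun i => (T.image fun h => h i).card) e
      (fun i => by
        have := card_image_le (s := T) (f := fun h : (∀ i, X i) => h i)
        omega)
    have hone : ∀ i, (i = a ∨ i = b ∨ i = c) → (T.image fun h => h i).card ≤ 1 := by
      intro i hi
      rw [card_le_one]
      intro u hu v hv
      obtain ⟨h, hh, rfl⟩ := mem_image.mp hu
      obtain ⟨h', hh', rfl⟩ := mem_image.mp hv
      have g1 := (mem_filter.mp (hT hh)).2
      have g2 := (mem_filter.mp (hT hh')).2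
      have g3 : tr a b c h = tr a b c h' := g1.trans g2.symm
      simp only [tr, Prod.mk.injEq] at g3
      rcases hi with rfl | rfl | rfl
      · exact g3.1
      · exact g3.2.1
      · exact g3.2.2
    have k1 := hone a (Or.inl rfl)
    have k2 := hone b (Or.inr (Or.inl rfl))
    have k3 := hone c (Or.inr (Or.inr rfl))
    unfold spannedU at h1
    omega
  refine ⟨hsp, hmul, ?_, ?_, ?_⟩
  · funext x y
    simp only [sh12, sh, hH', eq_iff_iff]
    constructor
    · rintro ⟨z, hz⟩
      obtain ⟨h, hh, he⟩ := mem_image.mp hz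
      simp only [tr, Prod.mk.injEq] at he
      exact ⟨h, hh, he.1, he.2.1⟩
    · rintro ⟨h, hh, rfl, rfl⟩
      exact ⟨h c, mem_image.mpr ⟨h, hh, rfl⟩⟩
  · funext x y
    simp only [sh13, sh, hH', eq_iff_iff]
    constructor
    · rintro ⟨z, hz⟩
      obtain ⟨h, hh, he⟩ := mem_image.mp hz
      simp only [tr, Prod.mk.injEq] at he
      exact ⟨h, hh, he.1, he.2.2⟩
    · rintro ⟨h, hh, rfl, rfl⟩
      exact ⟨h b, mem_image.mpr ⟨h, hh, rfl⟩⟩
  · funext x y
    simp only [sh23, sh, hH', eq_iff_iff]
    constructor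
    · rintro ⟨z, hz⟩
      obtain ⟨h, hh, he⟩ := mem_image.mp hz
      simp only [tr, Prod.mk.injEq] at he
      exact ⟨h, hh, he.2.1, he.2.2⟩
    · rintro ⟨h, hh, rfl, rfl⟩
      exact ⟨h a, mem_image.mpr ⟨h, hh, rfl⟩⟩

variable [∀ i, Fintype (X i)]

theorem upperU {e n : ℕ} (hr : 3 ≤ r) (he : 1 ≤ e) {H : Finset (∀ i, X i)} (hH : SparseU e H)
    (a b c : Fin r) (hab : a ≠ b) (hac : a ≠ c) (hbc : b ≠ c)
    (h12 : Rectangular (sh H a b)) (h13 : Rectangular (sh H a c))
    (ha : Fintype.card (X a) ≤ n) (hb : Fintype.card (X b) ≤ n) (hc : Fintype.card (X c) ≤ n) :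
    H.card ≤ (e - 1) ^ 2 * (n + 2 * n * Nat.sqrt n) := by
  obtain ⟨g1, g2, g3, g4, -⟩ := trace_spec hr he hH a b c hab hac hbc
  calc H.card ≤ (e - 1) * ((e - 1) * (n + 2 * n * Nat.sqrt n)) :=
        g2.trans (Nat.mul_le_mul_left _
          (upper he g1 (by rw [g3]; exact h12) (by rw [g4]; exact h13) ha hb hc))
    _ = _ := by ring

/-- `H` is closed under the componentwise ternary operation `m`. -/
def ClosedU (m : ∀ i, X i → X i → X i → X i) (H : Finset (∀ i, X i)) : Prop :=
  ∀ p ∈ H, ∀ q ∈ H, ∀ t ∈ H, (fun i => m i (p i) (q i) (t i)) ∈ H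

lemma closed_rectU {m : ∀ i, X i → X i → X i → X i} {H : Finset (∀ i, X i)} (hH : ClosedU m H)
    (a b : Fin r) (ha : ∀ x y, m a x y y = x) (hb : ∀ x y, m b x x y = y) :
    Rectangular (sh H a b) := by
  rintro x x' y y' ⟨p, hp, rfl, rfl⟩ ⟨q, hq, rfl, hqb⟩ ⟨t, ht, hta, rfl⟩
  refine ⟨_, hH p hp q hq t ht, ?_, ?_⟩
  · show m a (p a) (q a) (t a) = p a
    rw [hta, ha]
  · show m b (p b) (q b) (t b) = t b
    rw [hqb, hb]

end unif

end Pool.Agent.V11278.Rect
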