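import Mathlib

set_option autoImplicit false
set_option linter.unusedSectionVars false

/-!
Tripartite triple systems `H ⊆ X × Y × Z` two of whose bipartite shadows are rectangular (disjoint
unions of complete bipartite graphs).
-/

namespace Pool.Agent.V11278.Rect

open Finset

variable {X Y Z : Type*} [DecidableEq X] [DecidableEq Y] [DecidableEq Z]

/-- Number of vertices spanned by a set of triples. -/
def spanned (T : Finset (X × Y × Z)) : ℕ :=
  (T.image fun t => t.1).card + (T.image fun t => t.2.1).card + (T.image fun t => t.2.2).card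

/-- Any `s` triples of `H` span more than `s + 3` vertices. -/
def Sparse (s : ℕ) (H : Finset (X × Y × Z)) : Prop :=
  ∀ T ⊆ H, T.card = s → s + 3 < spanned T

/-- The bipartite relation `R` is rectangular: a disjoint union of complete bipartite graphs. -/
def Rectangular {A B : Type*} (R : A → B → Prop) : Prop :=
  ∀ a a' b b', R a b → R a' b → R a' b' → R a b'

def sh12 (H : Finset (X × Y × Z)) (x : X) (y : Y) : Prop := ∃ z, (x, y, z) ∈ H
def sh13 (H : Finset (X × Y × Z)) (x : X) (z : Z) : Prop := ∃ y, (x, y, z) ∈ H
def sh23 (H : Finset (X × Y × Z)) (y : Y) (z : Z) : Prop := ∃ x, (x, y, z) ∈ H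

lemma card_image_insert_le {A B : Type*} [DecidableEq A] [DecidableEq B] (S : Finset A) (t : A)
    (f : A → B) : ((insert t S).image f).card ≤ (S.image f).card + 1 := by
  rw [image_insert]; exact card_insert_le _ _

lemma card_image_insert_mem {A B : Type*} [DecidableEq A] [DecidableEq B] (S : Finset A) (t : A)
    (f : A → B) (h : f t ∈ S.image f) : ((insert t S).image f).card = (S.image f).card := by
  rw [image_insert, insert_eq_self.mpr h]

/-- Growth in the link of two twins. -/
lemma grow (H : Finset (X × Y × Z)) (x x' : X) (hx : x ≠ x')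
    (hY : ∀ y, sh12 H x y ↔ sh12 H x' y) (hZ : ∀ z, sh13 H x z ↔ sh13 H x' z) :
    ∀ j : ℕ, j ≤ (H.filter fun t => t.1 = x ∨ t.1 = x').card →
      ∃ S ⊆ H.filter fun t => t.1 = x ∨ t.1 = x', S.card = j ∧
        (S.image fun t => t.2.1).card + (S.image fun t => t.2.2).card ≤ j + 1 := by
  intro j
  induction j with
  | zero => intro _; exact ⟨∅, empty_subset _, rfl, by simp⟩
  | succ j ih =>
    intro hj
    obtain ⟨S, hS, hc, hv⟩ := ih (by omega)
    set E := H.filter fun t => t.1 = x ∨ t.1 = x' with hE
    by_cases h : ∃ t ∈ E, t ∉ S ∧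
        (t.2.1 ∈ S.image (fun t => t.2.1) ∨ t.2.2 ∈ S.image (fun t => t.2.2))
    · obtain ⟨t, ht, htS, hd⟩ := h
      refine ⟨insert t S, insert_subset ht hS, by rw [card_insert_of_notMem htS, hc], ?_⟩
      rcases hd with hd | hd
      · have h1 := card_image_insert_mem S t (fun t => t.2.1) hd
        have h2 := card_image_insert_le S t (fun t => t.2.2)
        omega
      · have h1 := card_image_insert_le S t (fun t => t.2.1)
        have h2 := card_image_insert_mem S t (fun t => t.2.2) hd
        omega
    · push Not at h
      have hmem : ∀ t ∈ E, t.2.1 ∈ S.image (fun t => t.2.1) → t ∈ S := by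
        intro t ht h1; by_contra h2; exact (h t ht h2).1 h1
      have hmem' : ∀ t ∈ E, t.2.2 ∈ S.image (fun t => t.2.2) → t ∈ S := by
        intro t ht h1; by_contra h2; exact (h t ht h2).2 h1
      have hEx : ∀ u, (u = x ∨ u = x') → ∀ y z, (u, y, z) ∈ H → (u, y, z) ∈ E := by
        intro u hu y z hm
        rw [hE, mem_filter]; exact ⟨hm, hu⟩
      have hdisj : (S.filter fun t => t.1 = x).card + (S.filter fun t => t.1 = x').card ≤ S.card := by
        rw [← card_union_of_disjoint]
        · exact card_le_card (union_subset (filter_subset _ _) (filter_subset _ _))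
        · rw [disjoint_left]
          intro t h1 h2
          rw [mem_filter] at h1 h2
          exact hx (h1.2.symm.trans h2.2)
      have key1 : ∀ u, (u = x ∨ u = x') →
          (S.image fun t => t.2.1).card ≤ (S.filter fun t => t.1 = u).card := by
        intro u hu
        refine le_trans (card_le_card ?_) (card_image_le (f := fun t : X × Y × Z => t.2.1))
        intro y hy
        obtain ⟨t, ht, rfl⟩ := mem_image.mp hy
        have ht1 := mem_filter.mp (hS ht)
        have hsh : sh12 H t.1 t.2.1 := ⟨t.2.2, ht1.1⟩
        have : sh12 H u t.2.1 := by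
          rcases ht1.2 with h1 | h1 <;> rcases hu with h2 | h2
          · rw [h2, ← h1]; exact hsh
          · rw [h2]; rw [h1] at hsh; exact (hY _).mp hsh
          · rw [h2]; rw [h1] at hsh; exact (hY _).mpr hsh
          · rw [h2, ← h1]; exact hsh
        obtain ⟨z, hz⟩ := this
        refine mem_image.mpr ⟨(u, t.2.1, z), mem_filter.mpr ⟨?_, rfl⟩, rfl⟩
        exact hmem _ (hEx u hu _ _ hz) hy
      have key2 : ∀ u, (u = x ∨ u = x') →
          (S.image fun t => t.2.2).card ≤ (S.filter fun t => t.1 = u).card := by
        intro u hu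
        refine le_trans (card_le_card ?_) (card_image_le (f := fun t : X × Y × Z => t.2.2))
        intro z hz
        obtain ⟨t, ht, rfl⟩ := mem_image.mp hz
        have ht1 := mem_filter.mp (hS ht)
        have hsh : sh13 H t.1 t.2.2 := ⟨t.2.1, ht1.1⟩
        have : sh13 H u t.2.2 := by
          rcases ht1.2 with h1 | h1 <;> rcases hu with h2 | h2
          · rw [h2, ← h1]; exact hsh
          · rw [h2]; rw [h1] at hsh; exact (hZ _).mp hsh
          · rw [h2]; rw [h1] at hsh; exact (hZ _).mpr hsh
          · rw [h2, ← h1]; exact hsh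
        obtain ⟨y, hy⟩ := this
        refine mem_image.mpr ⟨(u, y, t.2.2), mem_filter.mpr ⟨?_, rfl⟩, rfl⟩
        exact hmem' _ (hEx u hu _ _ hy) hz
      have a1 := key1 x (Or.inl rfl)
      have a2 := key1 x' (Or.inr rfl)
      have a3 := key2 x (Or.inl rfl)
      have a4 := key2 x' (Or.inr rfl)
      have hlt : S.card < E.card := by omega
      obtain ⟨t, ht, htS⟩ := exists_mem_notMem_of_card_lt_card hlt
      refine ⟨insert t S, insert_subset ht hS, by rw [card_insert_of_notMem htS, hc], ?_⟩
      have h1 := card_image_insert_le S t (fun t => t.2.1)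
      have h2 := card_image_insert_le S t (fun t => t.2.2)
      omega

/-- Two twins have together less than `s` triples. -/
lemma twins {s : ℕ} {H : Finset (X × Y × Z)} (hH : Sparse s H) (x x' : X) (hx : x ≠ x')
    (hY : ∀ y, sh12 H x y ↔ sh12 H x' y) (hZ : ∀ z, sh13 H x z ↔ sh13 H x' z) :
    (H.filter fun t => t.1 = x ∨ t.1 = x').card < s := by
  by_contra hcon
  obtain ⟨S, hS, hc, hv⟩ := grow H x x' hx hY hZ s (by omega)
  have h1 := hH S (hS.trans (filter_subset _ _)) hc
  have h2 : (S.image fun t => t.1) ⊆ {x, x'} := by
    intro u hu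
    obtain ⟨t, ht, rfl⟩ := mem_image.mp hu
    have := (mem_filter.mp (hS ht)).2
    simpa using this
  have h3 := (card_le_card h2).trans (card_le_two (a := x) (b := x'))
  unfold spanned at h1
  omega

/-- The triples through `x`. -/
def star (H : Finset (X × Y × Z)) (x : X) : Finset (X × Y × Z) := H.filter fun t => t.1 = x

def nY (H : Finset (X × Y × Z)) (x : X) : Finset Y := (star H x).image fun t => t.2.1
def nZ (H : Finset (X × Y × Z)) (x : X) : Finset Z := (star H x).image fun t => t.2.2

lemma mem_nY (H : Finset (X × Y × Z)) (x : X) (y : Y) : y ∈ nY H x ↔ sh12 H x y := by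
  unfold nY star sh12
  constructor
  · intro h
    obtain ⟨t, ht, rfl⟩ := mem_image.mp h
    obtain ⟨h1, h2⟩ := mem_filter.mp ht
    exact ⟨t.2.2, by rw [← h2]; exact h1⟩
  · rintro ⟨z, hz⟩
    exact mem_image.mpr ⟨(x, y, z), mem_filter.mpr ⟨hz, rfl⟩, rfl⟩

lemma mem_nZ (H : Finset (X × Y × Z)) (x : X) (z : Z) : z ∈ nZ H x ↔ sh13 H x z := by
  unfold nZ star sh13
  constructor
  · intro h
    obtain ⟨t, ht, rfl⟩ := mem_image.mp h
    obtain ⟨h1, h2⟩ := mem_filter.mp ht
    exact ⟨t.2.1, by rw [← h2]; exact h1⟩
  · rintro ⟨y, hy⟩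
    exact mem_image.mpr ⟨(x, y, z), mem_filter.mpr ⟨hy, rfl⟩, rfl⟩

lemma star_le_Y {s : ℕ} {H : Finset (X × Y × Z)} (hH : Sparse s H) (x : X) :
    (star H x).card ≤ (s - 1) * (nY H x).card := by
  unfold nY
  apply card_le_mul_card_image
  intro y _
  by_contra hcon
  have h0 : s ≤ ((star H x).filter fun t => t.2.1 = y).card := by omega
  obtain ⟨T, hT, hc⟩ := exists_subset_card_eq h0
  have h1 := hH T (hT.trans ((filter_subset _ _).trans (filter_subset _ _))) hc
  unfold spanned at h1
  have h2 : (T.image fun t => t.1) ⊆ {x} := by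
    intro u hu
    obtain ⟨t, ht, rfl⟩ := mem_image.mp hu
    have := (mem_filter.mp (mem_filter.mp (hT ht)).1).2
    simpa using this
  have h3 : (T.image fun t => t.2.1) ⊆ {y} := by
    intro u hu
    obtain ⟨t, ht, rfl⟩ := mem_image.mp hu
    have := (mem_filter.mp (hT ht)).2
    simpa using this
  have h4 := card_le_card h2
  have h5 := card_le_card h3
  have h6 : (T.image fun t => t.2.2).card ≤ T.card := card_image_le
  rw [card_singleton] at h4 h5
  omega

lemma star_le_Z {s : ℕ} {H : Finset (X × Y × Z)} (hH : Sparse s H) (x : X) :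
    (star H x).card ≤ (s - 1) * (nZ H x).card := by
  unfold nZ
  apply card_le_mul_card_image
  intro z _
  by_contra hcon
  have h0 : s ≤ ((star H x).filter fun t => t.2.2 = z).card := by omega
  obtain ⟨T, hT, hc⟩ := exists_subset_card_eq h0
  have h1 := hH T (hT.trans ((filter_subset _ _).trans (filter_subset _ _))) hc
  unfold spanned at h1
  have h2 : (T.image fun t => t.1) ⊆ {x} := by
    intro u hu
    obtain ⟨t, ht, rfl⟩ := mem_image.mp hu
    have := (mem_filter.mp (mem_filter.mp (hT ht)).1).2
    simpa using this
  have h3 : (T.image fun t => t.2.2) ⊆ {z} := by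
    intro u hu
    obtain ⟨t, ht, rfl⟩ := mem_image.mp hu
    have := (mem_filter.mp (hT ht)).2
    simpa using this
  have h4 := card_le_card h2
  have h5 := card_le_card h3
  have h6 : (T.image fun t => t.2.1).card ≤ T.card := card_image_le
  rw [card_singleton] at h4 h5
  omega

lemma nY_disj {H : Finset (X × Y × Z)} (hR : Rectangular (sh12 H)) (x x' : X)
    (h : ¬ Disjoint (nY H x) (nY H x')) : nY H x = nY H x' := by
  rw [not_disjoint_iff] at h
  obtain ⟨y, h1, h2⟩ := h
  rw [mem_nY] at h1 h2
  ext y'
  rw [mem_nY, mem_nY]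
  constructor
  · intro h3; exact hR x' x y y' h2 h1 h3
  · intro h3; exact hR x x' y y' h1 h2 h3

lemma nZ_disj {H : Finset (X × Y × Z)} (hR : Rectangular (sh13 H)) (x x' : X)
    (h : ¬ Disjoint (nZ H x) (nZ H x')) : nZ H x = nZ H x' := by
  rw [not_disjoint_iff] at h
  obtain ⟨y, h1, h2⟩ := h
  rw [mem_nZ] at h1 h2
  ext y'
  rw [mem_nZ, mem_nZ]
  constructor
  · intro h3; exact hR x' x y y' h2 h1 h3
  · intro h3; exact hR x x' y y' h1 h2 h3

/-- A family of pairwise disjoint sets has total size at most the ground set. -/
lemma sum_card_le {A : Type*} [Fintype A] [DecidableEq A] (F : Finset (Finset A))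
    (hF : ∀ B ∈ F, ∀ C ∈ F, ¬ Disjoint B C → B = C) : ∑ B ∈ F, B.card ≤ Fintype.card A := by
  have : ∑ B ∈ F, B.card = (F.biUnion id).card := by
    rw [card_biUnion]
    · rfl
    · intro B hB C hC hBC
      by_contra h
      exact hBC (hF B hB C hC h)
  rw [this]
  exact card_le_univ _

theorem upper [Fintype X] [Fintype Y] [Fintype Z] {s n : ℕ} (hs : 1 ≤ s) {H : Finset (X × Y × Z)}
    (hH : Sparse s H)
    (h12 : Rectangular (sh12 H)) (h13 : Rectangular (sh13 H))
    (hX : Fintype.card X ≤ n) (hY : Fintype.card Y ≤ n) (hZ : Fintype.card Z ≤ n) :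
    H.card ≤ (s - 1) * (n + 2 * n * Nat.sqrt n) := by
  classical
  have hsum : H.card = ∑ x : X, (star H x).card := by
    unfold star
    exact card_eq_sum_card_fiberwise (fun t _ => mem_univ _)
  rw [hsum, ← sum_filter_add_sum_filter_not univ (fun x => (star H x).card < s)]
  have hlow : ∑ x ∈ univ.filter (fun x => (star H x).card < s), (star H x).card ≤ (s - 1) * n := by
    calc ∑ x ∈ univ.filter (fun x => (star H x).card < s), (star H x).card
        ≤ ∑ x ∈ univ.filter (fun x => (star H x).card < s), (s - 1) := by
          apply sum_le_sum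
          intro x hx
          have := (mem_filter.mp hx).2
          omega
      _ = (univ.filter (fun x => (star H x).card < s)).card * (s - 1) := by
          rw [sum_const, smul_eq_mul]
      _ ≤ n * (s - 1) := by
          apply Nat.mul_le_mul_right
          exact (card_le_univ _).trans hX
      _ = (s - 1) * n := Nat.mul_comm _ _
  set Hi := univ.filter (fun x : X => ¬ (star H x).card < s) with hHi
  set q := Nat.sqrt n with hq
  have hhigh : ∑ x ∈ Hi, (star H x).card ≤ (s - 1) * (2 * n * q) := by
    have h1 : ∑ x ∈ Hi, (star H x).card ≤ ∑ x ∈ Hi, (s - 1) * min (nY H x).card (nZ H x).card := by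
      apply sum_le_sum
      intro x _
      rcases le_total (nY H x).card (nZ H x).card with h | h
      · rw [min_eq_left h]; exact star_le_Y hH x
      · rw [min_eq_right h]; exact star_le_Z hH x
    refine h1.trans ?_
    rw [← mul_sum]
    apply Nat.mul_le_mul_left
    rw [← sum_filter_add_sum_filter_not Hi (fun x => min (nY H x).card (nZ H x).card ≤ q)]
    have h2 : ∑ x ∈ Hi.filter (fun x => min (nY H x).card (nZ H x).card ≤ q),
        min (nY H x).card (nZ H x).card ≤ n * q := by
      calc ∑ x ∈ Hi.filter (fun x => min (nY H x).card (nZ H x).card ≤ q),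
            min (nY H x).card (nZ H x).card
          ≤ ∑ x ∈ Hi.filter (fun x => min (nY H x).card (nZ H x).card ≤ q), q := by
            apply sum_le_sum
            intro x hx
            exact (mem_filter.mp hx).2
        _ = (Hi.filter (fun x => min (nY H x).card (nZ H x).card ≤ q)).card * q := by
            rw [sum_const, smul_eq_mul]
        _ ≤ n * q := by
            apply Nat.mul_le_mul_right
            exact (card_le_univ _).trans hX
    set G := Hi.filter (fun x => ¬ min (nY H x).card (nZ H x).card ≤ q) with hG
    have h3 : ∑ x ∈ G, min (nY H x).card (nZ H x).card ≤ q * n := by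
      have hinj : Set.InjOn (fun x => (nY H x, nZ H x)) (G : Set X) := by
        intro x hx x' hx' he
        by_contra hne
        simp only [Prod.mk.injEq] at he
        have hlt := twins hH x x' hne
          (fun y => by rw [← mem_nY, ← mem_nY, he.1]) (fun z => by rw [← mem_nZ, ← mem_nZ, he.2])
        have hx1 : x ∈ Hi := (mem_filter.mp (mem_coe.mp hx)).1
        have hx2 := (mem_filter.mp hx1).2
        have hx3 : (star H x).card ≤ (H.filter fun t => t.1 = x ∨ t.1 = x').card := by
          apply card_le_card
          intro t ht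
          have := mem_filter.mp ht
          exact mem_filter.mpr ⟨this.1, Or.inl this.2⟩
        omega
      calc ∑ x ∈ G, min (nY H x).card (nZ H x).card
          ≤ ∑ x ∈ G, (nZ H x).card := sum_le_sum fun x _ => min_le_right _ _
        _ = ∑ p ∈ G.image (fun x => (nY H x, nZ H x)), p.2.card := by
            rw [sum_image hinj]
        _ ≤ ∑ p ∈ (G.image (nY H)) ×ˢ (G.image (nZ H)), p.2.card := by
            apply sum_le_sum_of_subset
            intro p hp
            obtain ⟨x, hx, rfl⟩ := mem_image.mp hp
            exact mem_product.mpr ⟨mem_image_of_mem _ hx, mem_image_of_mem _ hx⟩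
        _ = (G.image (nY H)).card * ∑ C ∈ G.image (nZ H), C.card := by
            rw [sum_product]; simp only [sum_const, smul_eq_mul]
        _ ≤ q * n := by
            apply Nat.mul_le_mul
            · have hb : ∑ B ∈ G.image (nY H), B.card ≤ n := by
                refine (sum_card_le _ ?_).trans hY
                intro B hB C hC hBC
                obtain ⟨x, _, rfl⟩ := mem_image.mp hB
                obtain ⟨x', _, rfl⟩ := mem_image.mp hC
                exact nY_disj h12 x x' hBC
              have hc : (G.image (nY H)).card * (q + 1) ≤ ∑ B ∈ G.image (nY H), B.card := by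
                rw [← smul_eq_mul]
                apply card_nsmul_le_sum
                intro B hB
                obtain ⟨x, hx, rfl⟩ := mem_image.mp hB
                have h4 := (mem_filter.mp hx).2
                have h5 := min_le_left (nY H x).card (nZ H x).card
                omega
              have hn : n < (q + 1) * (q + 1) := Nat.lt_succ_sqrt n
              have h6 : (G.image (nY H)).card * (q + 1) < (q + 1) * (q + 1) := by omega
              have h7 := Nat.lt_of_mul_lt_mul_right h6
              omega
            · refine (sum_card_le _ ?_).trans hZ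
              intro B hB C hC hBC
              obtain ⟨x, _, rfl⟩ := mem_image.mp hB
              obtain ⟨x', _, rfl⟩ := mem_image.mp hC
              exact nZ_disj h13 x x' hBC
    calc _ ≤ n * q + q * n := Nat.add_le_add h2 h3
      _ = 2 * n * q := by ring
  calc _ ≤ (s - 1) * n + (s - 1) * (2 * n * q) := Nat.add_le_add hlow hhigh
    _ = (s - 1) * (n + 2 * n * q) := by ring

end Pool.Agent.V11278.Rect
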